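import Mathlib

/-!
Analytic subsets of open subsets of complex number space with their reduced structure,
holomorphic functions on them, holomorphic hulls and the Stein property.
-/

set_option autoImplicit false

namespace Pool.Agent.P.MP_0cf9ad_an

/-- `X` is the common zero set of finitely many holomorphic functions on an open subset of `ℂ^N` -/
def IsAnalyticSet {N : ℕ} (X : Set (Fin N → ℂ)) : Prop :=
  ∃ G : Set (Fin N → ℂ), IsOpen G ∧ ∃ (m : ℕ) (F : Fin m → (Fin N → ℂ) → ℂ),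
    (∀ i, DifferentiableOn ℂ (F i) G) ∧ X = {z ∈ G | ∀ i, F i z = 0}

/-- `f` is holomorphic on `Y`: near every point of `Y` it is the restriction of a holomorphic
function on an open subset of `ℂ^N` -/
def Hol {N : ℕ} (Y : Set (Fin N → ℂ)) (f : (Fin N → ℂ) → ℂ) : Prop :=
  ∀ x ∈ Y, ∃ V : Set (Fin N → ℂ), IsOpen V ∧ x ∈ V ∧
    ∃ F : (Fin N → ℂ) → ℂ, DifferentiableOn ℂ F V ∧ ∀ y ∈ Y ∩ V, f y = F y

/-- the holomorphically convex hull of `K` in `Y` -/
def hull {N : ℕ} (Y K : Set (Fin N → ℂ)) : Set (Fin N → ℂ) :=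
  {x ∈ Y | ∀ f, Hol Y f → ‖f x‖ ≤ sSup ((fun y => ‖f y‖) '' K)}

/-- `Y` is holomorphically convex and its holomorphic functions separate points -/
def IsStein {N : ℕ} (Y : Set (Fin N → ℂ)) : Prop :=
  (∀ K ⊆ Y, IsCompact K → IsCompact (hull Y K)) ∧
    ∀ x ∈ Y, ∀ y ∈ Y, x ≠ y → ∃ f, Hol Y f ∧ f x ≠ f y

end Pool.Agent.P.MP_0cf9ad_an
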