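import Pool.Agent.P.MP_0cf9ad_an.Zeros

/-!
The biquadratic relation between two systems of theta functions of degree two.
-/

set_option autoImplicit false

open Metric Filter Topology Set

namespace Pool.Agent.P.MP_0cf9ad_an

/-- the twisting constant -/
noncomputable def r : ℂ := 1 / 1000

theorem r_ne : r ≠ 0 := by norm_num [r]
theorem norm_r : ‖r‖ = 1 / 1000 := by norm_num [r]

/-- the linear form vanishing on the theta vector of `a` -/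
noncomputable def ell (c t a v0 v1 : ℂ) : ℂ := v1 * Qv c t a - v0 * Pv c t a

noncomputable def W (c t x y : ℂ) : ℂ := ell c t y (Qv c t x) (Pv c t x)

theorem W_th {c t x y : ℂ} (ht : ‖t‖ < 1) (hc : c ≠ 0) (hx : x ≠ 0) (hy : y ≠ 0) :
    W c t x y = y * (th t (x / y) * th t (c * x * y)) := W_eq ht hc hx hy

noncomputable def AA (c d t x v0 v1 : ℂ) : ℂ :=
  d ^ 2 * x ^ 2 * (ell c t x v0 v1 * ell c t (d * x)⁻¹ v0 v1)

theorem AA_symm {c d t x y : ℂ} (ht : ‖t‖ < 1) (hc : c ≠ 0) (hd : d ≠ 0) (hx : x ≠ 0)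
    (hy : y ≠ 0) :
    AA c d t x (Qv c t y) (Pv c t y) = AA d c t y (Qv d t x) (Pv d t x) := by
  have h1 := W_th ht hc hy hx
  have h2 := W_th ht hc hy (inv_ne_zero (mul_ne_zero hd hx))
  have h3 := W_th ht hd hx hy
  have h4 := W_th ht hd hx (inv_ne_zero (mul_ne_zero hc hy))
  have h5 := th_inv ht (div_ne_zero hx hy)
  have h6 := th_inv ht (z := d * x * (c * y)⁻¹) (by positivity)
  rw [show y / (d * x)⁻¹ = d * x * y by field_simp] at h2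
  rw [show x / (c * y)⁻¹ = c * y * x by field_simp] at h4
  rw [inv_div] at h5
  rw [show (d * x * (c * y)⁻¹)⁻¹ = c * y * (d * x)⁻¹ by field_simp] at h6
  unfold W at h1 h2 h3 h4
  rw [AA, AA, h1, h2, h3, h4, ← h5, ← h6]
  field_simp

noncomputable def kap (t : ℂ) : ℂ := W r t 10 20 * W r t 20 30 * W r t 30 10

noncomputable def BB (t v0 v1 w0 w1 : ℂ) : ℂ :=
  -(AA 1 r t 10 v0 v1 * W r t 20 30 * ell r t 20 w0 w1 * ell r t 30 w0 w1 +
    AA 1 r t 20 v0 v1 * W r t 30 10 * ell r t 30 w0 w1 * ell r t 10 w0 w1 +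
    AA 1 r t 30 v0 v1 * W r t 10 20 * ell r t 10 w0 w1 * ell r t 20 w0 w1)

theorem W_ne {c t x y : ℂ} (ht : ‖t‖ < 1 / 100) (hc : c ≠ 0) (hx : x ≠ 0) (hy : y ≠ 0)
    (h1 : 1 / 100 ≤ ‖x / y‖) (h2 : ‖x / y‖ ≤ 100) (h3 : x / y ≠ 1)
    (h4 : 1 / 100 ≤ ‖c * x * y‖) (h5 : ‖c * x * y‖ ≤ 100) (h6 : c * x * y ≠ 1) : W c t x y ≠ 0 := by
  rw [W_th (by linarith) hc hx hy]
  exact mul_ne_zero hy (mul_ne_zero (th_ne' ht h1 h2 h3) (th_ne' ht h4 h5 h6))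

theorem Wr_ne {t : ℂ} (ht : ‖t‖ < 1 / 100) :
    W r t 10 20 ≠ 0 ∧ W r t 20 30 ≠ 0 ∧ W r t 30 10 ≠ 0 := by
  refine ⟨?_, ?_, ?_⟩ <;> apply W_ne ht r_ne <;> norm_num [r]

theorem W1_ne {t : ℂ} (ht : ‖t‖ < 1 / 100) :
    W 1 t 2 3 ≠ 0 ∧ W 1 t 3 4 ≠ 0 ∧ W 1 t 4 2 ≠ 0 := by
  refine ⟨?_, ?_, ?_⟩ <;> apply W_ne ht one_ne_zero <;> norm_num

theorem kap_ne {t : ℂ} (ht : ‖t‖ < 1 / 100) : kap t ≠ 0 :=
  mul_ne_zero (mul_ne_zero (Wr_ne ht).1 (Wr_ne ht).2.1) (Wr_ne ht).2.2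

theorem BB_left {t y : ℂ} (ht : ‖t‖ < 1) (hy : y ≠ 0) (l w0 w1 : ℂ) :
    BB t (l * Qv 1 t y) (l * Pv 1 t y) w0 w1 = l ^ 2 * kap t * AA r 1 t y w0 w1 := by
  have h : ∀ x : ℂ, x ≠ 0 → AA 1 r t x (l * Qv 1 t y) (l * Pv 1 t y) =
      l ^ 2 * AA r 1 t y (Qv r t x) (Pv r t x) := fun x hx => by
    rw [← AA_symm ht one_ne_zero r_ne hx hy]; simp only [AA, ell]; ring
  rw [BB, h 10 (by norm_num), h 20 (by norm_num), h 30 (by norm_num)]
  simp only [kap, W, AA, ell]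
  ring

theorem quad_zero {q : ℂ → ℂ → ℂ} {α β γ : ℂ}
    (hq : ∀ a b, q a b = α * a ^ 2 + β * (a * b) + γ * b ^ 2) {a0 a1 b0 b1 c0 c1 : ℂ}
    (h1 : a1 * b0 - a0 * b1 ≠ 0) (h2 : b1 * c0 - b0 * c1 ≠ 0) (h3 : c1 * a0 - c0 * a1 ≠ 0)
    (ha : q a0 a1 = 0) (hb : q b0 b1 = 0) (hc : q c0 c1 = 0) (v0 v1 : ℂ) : q v0 v1 = 0 := by
  apply mul_left_cancel₀ (mul_ne_zero (mul_ne_zero h1 h2) h3)
  rw [hq] at ha hb hc ⊢
  linear_combination (-((b1 * c0 - b0 * c1) * (v1 * b0 - v0 * b1) * (v1 * c0 - v0 * c1))) * ha +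
    (-((c1 * a0 - c0 * a1) * (v1 * c0 - v0 * c1) * (v1 * a0 - v0 * a1))) * hb +
    (-((a1 * b0 - a0 * b1) * (v1 * a0 - v0 * a1) * (v1 * b0 - v0 * b1))) * hc

theorem BB_right {t x : ℂ} (ht : ‖t‖ < 1 / 100) (hx : x ≠ 0) (m v0 v1 : ℂ) :
    BB t v0 v1 (m * Qv r t x) (m * Pv r t x) = m ^ 2 * kap t * AA 1 r t x v0 v1 := by
  set q : ℂ → ℂ → ℂ := fun a b =>
    BB t a b (m * Qv r t x) (m * Pv r t x) - m ^ 2 * kap t * AA 1 r t x a b with hq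
  have h : ∀ y : ℂ, y ≠ 0 → q (Qv 1 t y) (Pv 1 t y) = 0 := fun y hy => by
    have h1 := BB_left (by linarith : ‖t‖ < 1) hy 1 (m * Qv r t x) (m * Pv r t x)
    rw [one_mul, one_mul] at h1
    simp only [hq]
    rw [h1, AA_symm (by linarith) one_ne_zero r_ne hx hy]
    simp only [AA, ell]; ring
  obtain ⟨h1, h2, h3⟩ := W1_ne ht
  have := quad_zero (q := q) (α := q 1 0) (β := q 1 1 - q 1 0 - q 0 1) (γ := q 0 1)
    (fun a b => by
      simp only [hq, BB, AA]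
      generalize ell r t 10 (m * Qv r t x) (m * Pv r t x) = e1
      generalize ell r t 20 (m * Qv r t x) (m * Pv r t x) = e2
      generalize ell r t 30 (m * Qv r t x) (m * Pv r t x) = e3
      simp only [ell]; ring)
    h1 h2 h3 (h 2 (by norm_num)) (h 3 (by norm_num)) (h 4 (by norm_num)) v0 v1
  exact sub_eq_zero.1 this

theorem BB_diag {t x : ℂ} (ht : ‖t‖ < 1) (hx : x ≠ 0) (l m : ℂ) :
    BB t (l * Qv 1 t x) (l * Pv 1 t x) (m * Qv r t x) (m * Pv r t x) = 0 := by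
  rw [BB_left ht hx]; simp only [AA, ell]; ring

/-- the theta vector never vanishes -/
theorem vec_ne {c t x : ℂ} (ht : ‖t‖ < 1 / 100) (hc : c = 1 ∨ c = r) (hx : x ≠ 0) :
    Qv c t x ≠ 0 ∨ Pv c t x ≠ 0 := by
  by_contra h
  simp only [not_or, not_not] at h
  have hc0 : c ≠ 0 := by rcases hc with rfl | rfl; exacts [one_ne_zero, r_ne]
  have key : ∀ y : ℂ, y ≠ 0 → th t (x / y) = 0 ∨ th t (c * x * y) = 0 := fun y hy => by
    have := W_th (by linarith : ‖t‖ < 1) hc0 hx hy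
    rw [W, ell, h.1, h.2] at this
    simpa [hy] using this.symm
  have h2 : ∀ s : ℂ, s ≠ 0 → s ≠ 1 → 1 / 100 ≤ ‖s‖ → ‖s‖ ≤ 100 →
      th t (c * x * x * s⁻¹) = 0 := fun s h0 h1 h2 h3 => by
    rcases key (x / s) (div_ne_zero hx h0) with h | h
    · rw [show x / (x / s) = s by field_simp] at h
      exact absurd h (th_ne' ht h2 h3 h1)
    · rw [← h]; congr 1; ring
  obtain ⟨i, hi⟩ := th_zero ht (by simp [hc0, hx]) (h2 2 (by norm_num) (by norm_num) (by norm_num)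
    (by norm_num))
  obtain ⟨j, hj⟩ := th_zero ht (by simp [hc0, hx]) (h2 4 (by norm_num) (by norm_num) (by norm_num)
    (by norm_num))
  have ht0 : t ^ j ≠ 0 := by rw [← hj]; simp [hc0, hx]
  by_cases h0 : t = 0
  · have hj0 : j = 0 := by by_contra hne; rw [h0, zero_zpow _ hne] at ht0; exact ht0 rfl
    have hi0 : i = 0 := by
      by_contra hne
      rw [h0, zero_zpow _ hne] at hi
      exact absurd hi (by simp [hc0, hx])
    rw [hj0, zpow_zero] at hj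
    rw [hi0, zpow_zero] at hi
    have : (1 : ℂ) = 2 := by linear_combination -hi + 2 * hj
    norm_num at this
  · have h3 : t ^ (i - j) = 2 := by
      rw [zpow_sub₀ h0, ← hi, ← hj]; field_simp; norm_num
    rcases zpow_cases ht (i - j) with h | h | h | h <;> rw [h3] at h
    · norm_num at h
    · rw [← h] at ht; norm_num at ht
    · norm_num at h
    · norm_num at h

section smooth
variable {E : Type} [NormedAddCommGroup E] [NormedSpace ℂ E] {T Y A B C D : E → ℂ} {x : E}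

theorem cd_ell {c : ℂ} (hc : c ≠ 0) (hT : ContDiffAt ℂ 1 T x) (hY : ContDiffAt ℂ 1 Y x)
    (hA : ContDiffAt ℂ 1 A x) (hB : ContDiffAt ℂ 1 B x) (ht : ‖T x‖ < 1) (hy : Y x ≠ 0) :
    ContDiffAt ℂ 1 (fun p => ell c (T p) (Y p) (A p) (B p)) x :=
  (hB.mul (cd_Q hc hT hY ht hy)).sub (hA.mul (cd_P hc hT hY ht hy))

theorem cd_BB (hT : ContDiffAt ℂ 1 T x) (hA : ContDiffAt ℂ 1 A x) (hB : ContDiffAt ℂ 1 B x)
    (hC : ContDiffAt ℂ 1 C x) (hD : ContDiffAt ℂ 1 D x) (ht : ‖T x‖ < 1) :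
    ContDiffAt ℂ 1 (fun p => BB (T p) (A p) (B p) (C p) (D p)) x := by
  have h1 : ∀ a : ℂ, a ≠ 0 → ContDiffAt ℂ 1 (fun p => AA 1 r (T p) a (A p) (B p)) x := fun a ha =>
    contDiffAt_const.mul ((cd_ell one_ne_zero hT contDiffAt_const hA hB ht ha).mul
      (cd_ell one_ne_zero hT contDiffAt_const hA hB ht (inv_ne_zero (mul_ne_zero r_ne ha))))
  have h2 : ∀ a : ℂ, a ≠ 0 → ContDiffAt ℂ 1 (fun p => ell r (T p) a (C p) (D p)) x := fun a ha =>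
    cd_ell r_ne hT contDiffAt_const hC hD ht ha
  have h3 : ∀ a b : ℂ, a ≠ 0 → b ≠ 0 → ContDiffAt ℂ 1 (fun p => W r (T p) a b) x :=
    fun a b ha hb => cd_ell r_ne hT contDiffAt_const (cd_Q r_ne hT contDiffAt_const ht ha)
      (cd_P r_ne hT contDiffAt_const ht ha) ht hb
  have a1 : (10 : ℂ) ≠ 0 := by norm_num
  have a2 : (20 : ℂ) ≠ 0 := by norm_num
  have a3 : (30 : ℂ) ≠ 0 := by norm_num
  exact ((((((h1 _ a1).mul (h3 _ _ a2 a3)).mul (h2 _ a2)).mul (h2 _ a3)).add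
    ((((h1 _ a2).mul (h3 _ _ a3 a1)).mul (h2 _ a3)).mul (h2 _ a1))).add
    ((((h1 _ a3).mul (h3 _ _ a1 a2)).mul (h2 _ a1)).mul (h2 _ a2))).neg

end smooth

end Pool.Agent.P.MP_0cf9ad_an
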