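import Pool.Agent.P.MP_0cf9ad_an.Defs

/-!
General facts on holomorphic functions and hulls.
-/

set_option autoImplicit false

open Metric Filter Topology Set

namespace Pool.Agent.P.MP_0cf9ad_an

variable {N : ℕ} {Y K : Set (Fin N → ℂ)} {f : (Fin N → ℂ) → ℂ}

theorem exists_open_diff {F : (Fin N → ℂ) → ℂ} {x : Fin N → ℂ} (h : ContDiffAt ℂ 1 F x) :
    ∀ᶠ y in 𝓝 x, DifferentiableAt ℂ F y :=
  (h.eventually (by simp)).mono fun _ hy => hy.differentiableAt one_ne_zero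

theorem hol_of_local (h : ∀ x ∈ Y, ∃ F : (Fin N → ℂ) → ℂ, ContDiffAt ℂ 1 F x ∧
    ∀ᶠ y in 𝓝 x, y ∈ Y → f y = F y) : Hol Y f := by
  intro x hx
  obtain ⟨F, h1, h2⟩ := h x hx
  obtain ⟨V, hV, hVo, hxV⟩ := _root_.mem_nhds_iff.1 ((exists_open_diff h1).and h2)
  exact ⟨V, hVo, hxV, F, fun y hy => (hV hy).1.differentiableWithinAt,
    fun y hy => (hV hy.2).2 hy.1⟩

theorem hol_of_cd (h : ∀ x ∈ Y, ContDiffAt ℂ 1 f x) : Hol Y f :=
  hol_of_local fun x hx => ⟨f, h x hx, Eventually.of_forall fun _ _ => rfl⟩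

theorem hol_coord (i : Fin N) : Hol Y fun p => p i := hol_of_cd fun _ _ => by fun_prop

theorem Hol.continuousOn (h : Hol Y f) : ContinuousOn f Y := by
  intro x hx
  obtain ⟨V, hV, hxV, F, hF, hfF⟩ := h x hx
  have h1 : ContinuousAt F x := (hF.differentiableAt (hV.mem_nhds hxV)).continuousAt
  refine h1.continuousWithinAt.congr_of_eventuallyEq ?_ (hfF x ⟨hx, hxV⟩)
  filter_upwards [self_mem_nhdsWithin, nhdsWithin_le_nhds (hV.mem_nhds hxV)] with y h2 h3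
  exact hfF y ⟨h2, h3⟩

theorem Hol.comp_diff (h : Hol Y f) {g : ℂ → Fin N → ℂ} {z : ℂ} (hg : DifferentiableAt ℂ g z)
    (hY : ∀ᶠ w in 𝓝 z, g w ∈ Y) : DifferentiableAt ℂ (fun w => f (g w)) z := by
  obtain ⟨V, hV, hxV, F, hF, hfF⟩ := h _ hY.self_of_nhds
  refine ((hF.differentiableAt (hV.mem_nhds hxV)).comp z hg).congr_of_eventuallyEq ?_
  filter_upwards [hY, hg.continuousAt.eventually (hV.mem_nhds hxV)] with w h1 h2
  exact hfF _ ⟨h1, h2⟩

theorem le_sSup_of_mem (hK : K ⊆ Y) (hc : IsCompact K) (h : Hol Y f) {y : Fin N → ℂ} (hy : y ∈ K) :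
    ‖f y‖ ≤ sSup ((fun y => ‖f y‖) '' K) :=
  le_csSup (hc.image_of_continuousOn (h.continuousOn.mono hK).norm).bddAbove ⟨y, hy, rfl⟩

theorem hull_bound (h : Hol Y f) : ∃ C : ℝ, 0 < C ∧ ∀ x ∈ hull Y K, ‖f x‖ ≤ C :=
  ⟨max 1 (sSup ((fun y => ‖f y‖) '' K)), by positivity,
    fun _ hx => (hx.2 f h).trans (le_max_right _ _)⟩

theorem hull_bound_lt (hK : K ⊆ Y) (hc : IsCompact K) (h : Hol Y f) {a : ℝ} (ha : 0 < a)
    (hlt : ∀ y ∈ Y, ‖f y‖ < a) : ∃ C : ℝ, C < a ∧ ∀ x ∈ hull Y K, ‖f x‖ ≤ C := by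
  refine ⟨_, ?_, fun x hx => hx.2 f h⟩
  rcases K.eq_empty_or_nonempty with rfl | hne
  · simpa using ha
  · obtain ⟨y, hy, e⟩ := hc.exists_sSup_image_eq hne (h.continuousOn.mono hK).norm
    rw [e]; exact hlt y (hK hy)

theorem isStein_of_limit (h : ∀ K ⊆ Y, IsCompact K → ∀ (l : Ultrafilter (Fin N → ℂ))
    (p : Fin N → ℂ), hull Y K ∈ l → (l : Filter (Fin N → ℂ)) ≤ 𝓝 p → p ∈ Y) : IsStein Y := by
  refine ⟨fun K hK hc => ?_, fun x _ y _ hxy => ?_⟩
  · refine Metric.isCompact_of_isClosed_isBounded ?_ ?_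
    · refine isClosed_of_closure_subset fun p hp => ?_
      obtain ⟨l, hl, hlp⟩ := mem_closure_iff_ultrafilter.1 hp
      have hpY := h K hK hc l p hl hlp
      refine ⟨hpY, fun f hf => ?_⟩
      have h1 : (l : Filter (Fin N → ℂ)) ≤ 𝓝[Y] p :=
        le_inf hlp (le_principal_iff.2 (mem_of_superset hl fun x hx => hx.1))
      have h2 : Tendsto (fun x => ‖f x‖) l (𝓝 ‖f p‖) :=
        ((hf.continuousOn p hpY).tendsto.mono_left h1).norm
      exact le_of_tendsto h2 (mem_of_superset hl fun x hx => hx.2 f hf)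
    · choose C _ hC using fun i : Fin N => hull_bound (K := K) (hol_coord (Y := Y) i)
      refine (Bornology.IsBounded.pi fun i => isBounded_closedBall (x := (0 : ℂ)) (r := C i)).subset
        fun x hx i _ => ?_
      simpa using hC i x hx
  · obtain ⟨i, hi⟩ := Function.ne_iff.1 hxy
    exact ⟨fun p => p i, hol_coord i, hi⟩

end Pool.Agent.P.MP_0cf9ad_an
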