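import Pool.Agent.P.MP_0cf9ad_an.Section
import Pool.Agent.P.MP_0cf9ad_an.General

/-!
The space, the parametrisation, its charts and their compatibility.
-/

set_option autoImplicit false

open Metric Filter Topology Set

namespace Pool.Agent.P.MP_0cf9ad_an

abbrev Amb := Fin 6 → ℂ
abbrev Par := Fin 5 → ℂ

noncomputable def Psi (w : Par) : Amb :=
  ![w 0, w 2 * Qv 1 (w 0) (w 1), w 2 * Pv 1 (w 0) (w 1), w 3 * Qv r (w 0) (w 1),
    w 3 * Pv r (w 0) (w 1), w 4]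

@[simp] theorem Psi0 (w : Par) : Psi w 0 = w 0 := rfl
@[simp] theorem Psi1 (w : Par) : Psi w 1 = w 2 * Qv 1 (w 0) (w 1) := rfl
@[simp] theorem Psi2 (w : Par) : Psi w 2 = w 2 * Pv 1 (w 0) (w 1) := rfl
@[simp] theorem Psi3 (w : Par) : Psi w 3 = w 3 * Qv r (w 0) (w 1) := rfl
@[simp] theorem Psi4 (w : Par) : Psi w 4 = w 3 * Pv r (w 0) (w 1) := rfl
@[simp] theorem Psi5 (w : Par) : Psi w 5 = w 4 := rfl

theorem amb_ext {p q : Amb} (h0 : p 0 = q 0) (h1 : p 1 = q 1) (h2 : p 2 = q 2) (h3 : p 3 = q 3)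
    (h4 : p 4 = q 4) (h5 : p 5 = q 5) : p = q := by
  funext i; fin_cases i <;> assumption

theorem par_ext {p q : Par} (h0 : p 0 = q 0) (h1 : p 1 = q 1) (h2 : p 2 = q 2) (h3 : p 3 = q 3)
    (h4 : p 4 = q 4) : p = q := by
  funext i; fin_cases i <;> assumption

noncomputable def hh (p : Amb) : ℂ := r * p 2 * p 3 - p 1 * p 4 + (1 - r) * p 1 ^ 2

noncomputable def Bp (p : Amb) : ℂ := BB (p 0) (p 1) (p 2) (p 3) (p 4)

/-- the ambient Stein space -/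
def XX : Set Amb := {p | ‖p 0‖ < 1 / 100 ∧ Bp p = 0 ∧ p 0 * p 5 = hh p}

/-- the parameter domain of the chart number `k` -/
structure Om (k : ℕ) (w : Par) : Prop where
  t_lt : ‖w 0‖ < 1 / 100
  t_ne : w 0 ≠ r
  x_ne : w 1 ≠ 0
  l_ne : w 2 ≠ 0
  s_lt : ‖r ^ k * w 3 / w 2 - 1‖ < 1 / 2
  eq : w 0 * w 4 = hh (Psi w)

/-- the increasing open subsets -/
def UU (n : ℕ) : Set Amb := {p | ∃ k ≤ n, ∃ w, Om k w ∧ Psi w = p}

theorem Om.m_ne {k : ℕ} {w : Par} (h : Om k w) : w 3 ≠ 0 := by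
  intro h0
  have := h.s_lt
  rw [h0] at this
  norm_num at this

theorem Om.t_lt_one {k : ℕ} {w : Par} (h : Om k w) : ‖w 0‖ < 1 := by linarith [h.t_lt]

theorem Om.mem {k : ℕ} {w : Par} (h : Om k w) : Psi w ∈ XX :=
  ⟨h.t_lt, BB_diag h.t_lt_one h.x_ne _ _, h.eq⟩

def ee (k : ℕ) : ℕ := k * (k - 1)

theorem ee_succ (k : ℕ) : ee (k + 1) = ee k + 2 * k := by
  unfold ee
  rcases k with _ | k
  · simp
  · simp only [Nat.add_sub_cancel]; ring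

theorem vec_shift {c t x : ℂ} (ht : ‖t‖ < 1) (h0 : t ≠ 0) (hc : c ≠ 0) (hx : x ≠ 0) (k : ℕ) :
    Qv c t (t ^ k * x) * (c ^ k * (t ^ ee k * x ^ (2 * k))) = Qv c t x ∧
      Pv c t (t ^ k * x) * (c ^ k * (t ^ ee k * x ^ (2 * k))) = Pv c t x := by
  induction k with
  | zero => simp [ee]
  | succ k ih =>
    have hy : t ^ k * x ≠ 0 := by positivity
    have h1 := Q_shift ht h0 hc hy
    have h2 := P_shift ht h0 hc hy
    rw [show t ^ (k + 1) * x = t * (t ^ k * x) by ring, ee_succ, ← ih.1, ← ih.2, ← h1, ← h2]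
    constructor <;> ring

/-- passage from the chart number `k` to the chart number zero -/
noncomputable def sh (k : ℕ) (w : Par) : Par :=
  ![w 0, w 0 ^ k * w 1, w 2 * (w 0 ^ ee k * w 1 ^ (2 * k)),
    w 3 * (r ^ k * (w 0 ^ ee k * w 1 ^ (2 * k))), w 4]

@[simp] theorem sh0 (k : ℕ) (w : Par) : sh k w 0 = w 0 := rfl
@[simp] theorem sh1 (k : ℕ) (w : Par) : sh k w 1 = w 0 ^ k * w 1 := rfl
@[simp] theorem sh2 (k : ℕ) (w : Par) : sh k w 2 = w 2 * (w 0 ^ ee k * w 1 ^ (2 * k)) := rfl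
@[simp] theorem sh3 (k : ℕ) (w : Par) :
    sh k w 3 = w 3 * (r ^ k * (w 0 ^ ee k * w 1 ^ (2 * k))) := rfl
@[simp] theorem sh4 (k : ℕ) (w : Par) : sh k w 4 = w 4 := rfl

theorem Psi_sh {w : Par} (ht : ‖w 0‖ < 1) (h0 : w 0 ≠ 0) (hx : w 1 ≠ 0) (k : ℕ) :
    Psi (sh k w) = Psi w := by
  obtain ⟨h1, h2⟩ := vec_shift ht h0 one_ne_zero hx k
  obtain ⟨h3, h4⟩ := vec_shift ht h0 r_ne hx k
  refine amb_ext rfl ?_ ?_ ?_ ?_ rfl <;> simp only [Psi1, Psi2, Psi3, Psi4, sh0, sh1, sh2, sh3]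
  · rw [← h1]; ring
  · rw [← h2]; ring
  · rw [← h3]; ring
  · rw [← h4]; ring

theorem sh_ratio {w : Par} (h0 : w 0 ≠ 0) (hx : w 1 ≠ 0) (k : ℕ) :
    sh k w 3 / sh k w 2 = r ^ k * w 3 / w 2 := by
  simp only [sh2, sh3]
  have : w 0 ^ ee k * w 1 ^ (2 * k) ≠ 0 := by positivity
  rw [show w 3 * (r ^ k * (w 0 ^ ee k * w 1 ^ (2 * k))) =
    r ^ k * w 3 * (w 0 ^ ee k * w 1 ^ (2 * k)) by ring, mul_div_mul_right _ _ this]

theorem Om.sh {k : ℕ} {w : Par} (h : Om k w) (h0 : w 0 ≠ 0) : Om 0 (sh k w) where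
  t_lt := h.t_lt
  t_ne := h.t_ne
  x_ne := mul_ne_zero (pow_ne_zero _ h0) h.x_ne
  l_ne := mul_ne_zero h.l_ne (mul_ne_zero (pow_ne_zero _ h0) (pow_ne_zero _ h.x_ne))
  s_lt := by rw [pow_zero, one_mul, sh_ratio h0 h.x_ne]; exact h.s_lt
  eq := by rw [Psi_sh h.t_lt_one h0 h.x_ne]; exact h.eq

theorem Om.unsh {w : Par} (h : Om 0 w) (h0 : w 0 ≠ 0) (k : ℕ) :
    ∃ w', Om k w' ∧ Pool.Agent.P.MP_0cf9ad_an.sh k w' = w ∧ Psi w' = Psi w := by
  have hx := h.x_ne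
  have hr := r_ne
  set w' : Par := ![w 0, w 1 / w 0 ^ k, w 2 / (w 0 ^ ee k * (w 1 / w 0 ^ k) ^ (2 * k)),
    w 3 / (r ^ k * (w 0 ^ ee k * (w 1 / w 0 ^ k) ^ (2 * k))), w 4] with hw'
  have e0 : w' 0 = w 0 := rfl
  have e1 : w' 1 = w 1 / w 0 ^ k := rfl
  have e2 : w' 2 = w 2 / (w 0 ^ ee k * (w 1 / w 0 ^ k) ^ (2 * k)) := rfl
  have e3 : w' 3 = w 3 / (r ^ k * (w 0 ^ ee k * (w 1 / w 0 ^ k) ^ (2 * k))) := rfl
  have hx' : w' 1 ≠ 0 := by rw [e1]; positivity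
  have hs : Pool.Agent.P.MP_0cf9ad_an.sh k w' = w := by
    refine par_ext rfl ?_ ?_ ?_ rfl
    · rw [sh1, e0, e1]; field_simp
    · rw [sh2, e0, e1, e2, div_mul_cancel₀ _ (by positivity)]
    · rw [sh3, e0, e1, e3, div_mul_cancel₀ _ (by positivity)]
  have hP : Psi w' = Psi w := by
    rw [← Psi_sh (w := w') h.t_lt_one h0 hx' k, hs]
  refine ⟨w', ⟨h.t_lt, h.t_ne, hx', ?_, ?_, ?_⟩, hs, hP⟩
  · rw [e2]; have := h.l_ne; positivity
  · rw [← sh_ratio (w := w') h0 hx', hs]; simpa using h.s_lt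
  · rw [hP]; exact h.eq

theorem disc_disj {s : ℂ} {j : ℕ} (h1 : ‖s - 1‖ < 1 / 2) (h2 : ‖r ^ j * s - 1‖ < 1 / 2) :
    j = 0 := by
  by_contra hj
  obtain ⟨i, rfl⟩ := Nat.exists_eq_succ_of_ne_zero hj
  have h3 := abs_norm_sub_norm_le s 1
  have h4 := abs_norm_sub_norm_le (r ^ (i + 1) * s) 1
  rw [abs_le, norm_one] at h3 h4
  rw [norm_mul, norm_pow, norm_r, pow_succ (1 / 1000 : ℝ)] at h4
  rw [Nat.succ_eq_add_one] at h2
  have h5 : (1 / 1000 : ℝ) ^ i ≤ 1 := pow_le_one₀ (by norm_num) (by norm_num)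
  have h6 := norm_nonneg s
  nlinarith [h3.2, h4.1]

theorem th_r {t : ℂ} (ht : ‖t‖ < 1 / 100) (h : t ≠ r) : th t r ≠ 0 :=
  th_ne ht (by rw [norm_r]; norm_num) (by rw [norm_r]; norm_num) (by norm_num [r]) h.symm

theorem th_r_inv {t : ℂ} (ht : ‖t‖ < 1 / 100) (h : t ≠ r) : th t r⁻¹ ≠ 0 := by
  intro h0
  apply th_r ht h
  rw [← th_inv (by linarith) r_ne, h0, zero_mul]

theorem no_common {t z : ℂ} (ht : ‖t‖ < 1 / 100) (h : t ≠ r) (hz : z ≠ 0) (h1 : th t z = 0)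
    (h2 : th t (r * z) = 0) : False := by
  obtain ⟨i, hi⟩ := th_zero ht hz h1
  by_cases h0 : t = 0
  · have hi0 : i = 0 := by
      by_contra hne
      rw [h0, zero_zpow _ hne] at hi
      exact hz hi
    rw [hi, hi0, zpow_zero, mul_one] at h2
    exact th_r ht h h2
  · rw [hi, mul_comm, th_zpow (by linarith) h0 r_ne] at h2
    exact th_r ht h h2

theorem inj_core {k k' : ℕ} {w w' : Par} (h : Om k w) (h' : Om k' w') (e : Psi w = Psi w') :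
    ∃ j : ℤ, w 1 / w' 1 = w 0 ^ j := by
  have e0 : w 0 = w' 0 := congrFun e 0
  have e1 := congrFun e 1
  have e2 := congrFun e 2
  have e3 := congrFun e 3
  have e4 := congrFun e 4
  simp only [Psi1, Psi2, Psi3, Psi4, ← e0] at e1 e2 e3 e4
  have a1 : W 1 (w 0) (w 1) (w' 1) = 0 := by
    apply mul_left_cancel₀ h.l_ne
    rw [W, ell]
    linear_combination Qv 1 (w 0) (w' 1) * e2 - Pv 1 (w 0) (w' 1) * e1
  have a2 : W r (w 0) (w 1) (w' 1) = 0 := by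
    apply mul_left_cancel₀ h.m_ne
    rw [W, ell]
    linear_combination Qv r (w 0) (w' 1) * e4 - Pv r (w 0) (w' 1) * e3
  rw [W_th h.t_lt_one one_ne_zero h.x_ne h'.x_ne] at a1
  rw [W_th h.t_lt_one r_ne h.x_ne h'.x_ne] at a2
  refine th_zero h.t_lt (div_ne_zero h.x_ne h'.x_ne) ?_
  by_contra hne
  simp only [mul_eq_zero, h'.x_ne, hne, false_or, one_mul] at a1 a2
  rw [mul_assoc] at a2
  exact no_common h.t_lt h.t_ne (mul_ne_zero h.x_ne h'.x_ne) a1 a2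

theorem same_x {w w' : Par} (ht : ‖w 0‖ < 1 / 100) (hx : w 1 ≠ 0) (e : Psi w = Psi w')
    (ex : w 1 = w' 1) : w = w' := by
  have e0 : w 0 = w' 0 := congrFun e 0
  have e1 := congrFun e 1
  have e2 := congrFun e 2
  have e3 := congrFun e 3
  have e4 := congrFun e 4
  simp only [Psi1, Psi2, Psi3, Psi4, ← e0, ← ex] at e1 e2 e3 e4
  refine par_ext e0 ex ?_ ?_ (congrFun e 5)
  · rcases vec_ne ht (Or.inl rfl) hx with h | h
    exacts [mul_right_cancel₀ h e1, mul_right_cancel₀ h e2]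
  · rcases vec_ne ht (Or.inr rfl) hx with h | h
    exacts [mul_right_cancel₀ h e3, mul_right_cancel₀ h e4]

theorem inj_nat {w w' : Par} (h : Om 0 w) (h' : Om 0 w') (h0 : w' 0 ≠ 0) (e : Psi w = Psi w')
    {j : ℕ} (hj : w 1 = w' 0 ^ j * w' 1) : w = w' := by
  have h1 : w = sh j w' :=
    same_x h.t_lt h.x_ne (e.trans (Psi_sh h'.t_lt_one h0 h'.x_ne j).symm) hj
  have h2 := h.s_lt
  have h3 := h'.s_lt
  rw [pow_zero, one_mul] at h2 h3
  rw [h1, sh_ratio h0 h'.x_ne, mul_div_assoc] at h2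
  rw [disc_disj h3 h2, pow_zero, one_mul] at hj
  exact same_x h.t_lt h.x_ne e hj

theorem inj_zero {w w' : Par} (h : Om 0 w) (h' : Om 0 w') (h0 : w 0 ≠ 0) (e : Psi w = Psi w') :
    w = w' := by
  have e0 : w 0 = w' 0 := congrFun e 0
  obtain ⟨j, hj⟩ := inj_core h h' e
  rw [div_eq_iff h'.x_ne] at hj
  rcases Int.eq_nat_or_neg j with ⟨i, rfl | rfl⟩
  · rw [zpow_natCast, e0] at hj
    exact inj_nat h h' (e0 ▸ h0) e hj
  · refine (inj_nat h' h h0 e.symm (j := i) ?_).symm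
    rw [hj, zpow_neg, zpow_natCast]; field_simp

theorem cons {k k' : ℕ} {w w' : Par} (h : Om k w) (h' : Om k' w') (e : Psi w = Psi w') :
    (w = w' ∧ k = k') ∨ (w 0 ≠ 0 ∧ w' 0 ≠ 0 ∧ sh k w = sh k' w') := by
  have e0 : w 0 = w' 0 := congrFun e 0
  by_cases h0 : w 0 = 0
  · left
    obtain ⟨j, hj⟩ := inj_core h h' e
    have hj0 : j = 0 := by
      by_contra hne
      rw [h0, zero_zpow _ hne] at hj
      exact div_ne_zero h.x_ne h'.x_ne hj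
    rw [hj0, zpow_zero, div_eq_one_iff_eq h'.x_ne] at hj
    have e' := same_x h.t_lt h.x_ne e hj
    subst e'
    refine ⟨rfl, ?_⟩
    have h1 := h.s_lt
    have h2 := h'.s_lt
    rcases le_total k k' with hk | hk
    · obtain ⟨i, rfl⟩ := Nat.exists_eq_add_of_le hk
      rw [show r ^ (k + i) * w 3 / w 2 = r ^ i * (r ^ k * w 3 / w 2) by ring] at h2
      simp [disc_disj h1 h2]
    · obtain ⟨i, rfl⟩ := Nat.exists_eq_add_of_le hk
      rw [show r ^ (k' + i) * w 3 / w 2 = r ^ i * (r ^ k' * w 3 / w 2) by ring] at h1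
      simp [disc_disj h2 h1]
  · right
    have h0' : w' 0 ≠ 0 := e0 ▸ h0
    refine ⟨h0, h0', inj_zero (h.sh h0) (h'.sh h0') h0 ?_⟩
    rw [Psi_sh h.t_lt_one h0 h.x_ne, Psi_sh h'.t_lt_one h0' h'.x_ne, e]

end Pool.Agent.P.MP_0cf9ad_an
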