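import Pool.Agent.P.MP_0cf9ad_an.Chart

/-!
The charts are open, and compatible holomorphic functions on them descend.
-/

set_option autoImplicit false

open Metric Filter Topology Set

namespace Pool.Agent.P.MP_0cf9ad_an

theorem cd_Psi {E : Type} [NormedAddCommGroup E] [NormedSpace ℂ E] {g : E → Par} {x : E}
    (hg : ContDiffAt ℂ 1 g x) (ht : ‖g x 0‖ < 1) (hx : g x 1 ≠ 0) :
    ContDiffAt ℂ 1 (fun y => Psi (g y)) x := by
  have h : ∀ i, ContDiffAt ℂ 1 (fun y => g y i) x := contDiffAt_pi.1 hg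
  rw [contDiffAt_pi]
  intro i
  fin_cases i
  · exact h 0
  · exact (h 2).mul (cd_Q one_ne_zero (h 0) (h 1) ht hx)
  · exact (h 2).mul (cd_P one_ne_zero (h 0) (h 1) ht hx)
  · exact (h 3).mul (cd_Q r_ne (h 0) (h 1) ht hx)
  · exact (h 3).mul (cd_P r_ne (h 0) (h 1) ht hx)
  · exact h 4

theorem cd_coord {n : ℕ} (i : Fin n) (p : Fin n → ℂ) :
    ContDiffAt ℂ 1 (fun q : Fin n → ℂ => q i) p := by fun_prop

theorem sec2 {k : ℕ} {w : Par} (h : Om k w) :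
    ∃ X L M : Amb → ℂ, ContDiffAt ℂ 1 X (Psi w) ∧ ContDiffAt ℂ 1 L (Psi w) ∧
      ContDiffAt ℂ 1 M (Psi w) ∧ X (Psi w) = w 1 ∧ L (Psi w) = w 2 ∧ M (Psi w) = w 3 ∧
      ∀ᶠ p in 𝓝 (Psi w), p ∈ XX →
        (p 1 = L p * Qv 1 (p 0) (X p) ∧ p 2 = L p * Pv 1 (p 0) (X p)) ∧
        (p 3 = M p * Qv r (p 0) (X p) ∧ p 4 = M p * Pv r (p 0) (X p)) := by
  by_cases h1 : th (w 0) (r * w 1 * w 1) = 0
  · have h2 : th (w 0) (1 * w 1 * w 1) ≠ 0 := fun h2 => by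
      rw [one_mul] at h2
      rw [mul_assoc] at h1
      exact no_common h.t_lt h.t_ne (mul_ne_zero h.x_ne h.x_ne) h2 h1
    obtain ⟨X, M, L, hX, hM, hL, eX, eM, eL, he⟩ := sec (E := Amb) (p0 := Psi w) (c := r) (d := 1)
      (Or.inr rfl) (Or.inl rfl) (cd_coord 0 _) (cd_coord 3 _) (cd_coord 4 _) (cd_coord 1 _)
      (cd_coord 2 _) h.t_lt h.x_ne h.m_ne h.l_ne rfl rfl rfl rfl h2
      (by rw [div_one]; exact th_r h.t_lt h.t_ne)
    refine ⟨X, L, M, hX, hL, hM, eX, eL, eM, ?_⟩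
    filter_upwards [he, hL.continuousAt.eventually_ne (eL ▸ h.l_ne),
      hX.continuousAt.eventually_ne (eX ▸ h.x_ne)] with p h3 h4 h5 hp
    refine ⟨h3.1, h3.2 ?_⟩
    have h6 := hp.2.1
    rw [Bp, h3.1.1, h3.1.2, BB_left (by linarith [hp.1]) h5] at h6
    exact (mul_eq_zero.1 h6).resolve_left (mul_ne_zero (pow_ne_zero _ h4) (kap_ne hp.1))
  · obtain ⟨X, L, M, hX, hL, hM, eX, eL, eM, he⟩ := sec (E := Amb) (p0 := Psi w) (c := 1) (d := r)
      (Or.inl rfl) (Or.inr rfl) (cd_coord 0 _) (cd_coord 1 _) (cd_coord 2 _) (cd_coord 3 _)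
      (cd_coord 4 _) h.t_lt h.x_ne h.l_ne h.m_ne rfl rfl rfl rfl h1
      (by rw [one_div]; exact th_r_inv h.t_lt h.t_ne)
    refine ⟨X, L, M, hX, hL, hM, eX, eL, eM, ?_⟩
    filter_upwards [he, hM.continuousAt.eventually_ne (eM ▸ h.m_ne),
      hX.continuousAt.eventually_ne (eX ▸ h.x_ne)] with p h3 h4 h5 hp
    refine ⟨h3.2 ?_, h3.1⟩
    have h6 := hp.2.1
    rw [Bp, h3.1.1, h3.1.2, BB_right hp.1 h5] at h6
    exact (mul_eq_zero.1 h6).resolve_left (mul_ne_zero (pow_ne_zero _ h4) (kap_ne hp.1))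

theorem sec3 {k : ℕ} {w : Par} (h : Om k w) :
    ∃ ρ : Amb → Par, ContDiffAt ℂ 1 ρ (Psi w) ∧ ρ (Psi w) = w ∧
      ∀ᶠ p in 𝓝 (Psi w), p ∈ XX → Om k (ρ p) ∧ Psi (ρ p) = p := by
  obtain ⟨X, L, M, hX, hL, hM, eX, eL, eM, he⟩ := sec2 h
  refine ⟨fun p => ![p 0, X p, L p, M p, p 5], ?_, par_ext rfl eX eL eM rfl, ?_⟩
  · rw [contDiffAt_pi]
    intro i
    fin_cases i
    exacts [cd_coord 0 _, hX, hL, hM, cd_coord 5 _]
  · have h1 : ContinuousAt (fun p => ‖r ^ k * M p / L p - 1‖) (Psi w) :=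
      (((continuousAt_const.mul hM.continuousAt).div hL.continuousAt (eL ▸ h.l_ne)).sub
        continuousAt_const).norm
    have h2 : ‖r ^ k * M (Psi w) / L (Psi w) - 1‖ < 1 / 2 := by rw [eM, eL]; exact h.s_lt
    filter_upwards [he, hL.continuousAt.eventually_ne (eL ▸ h.l_ne),
      hX.continuousAt.eventually_ne (eX ▸ h.x_ne), h1.eventually (gt_mem_nhds h2),
      (cd_coord 0 (Psi w)).continuousAt.eventually_ne h.t_ne] with p h3 h4 h5 h6 h7 hp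
    obtain ⟨⟨a1, a2⟩, a3, a4⟩ := h3 hp
    have e : Psi ![p 0, X p, L p, M p, p 5] = p :=
      amb_ext rfl a1.symm a2.symm a3.symm a4.symm rfl
    exact ⟨⟨hp.1, h7, h5, h4, h6, by rw [e]; exact hp.2.2⟩, e⟩

theorem UU_sub (n : ℕ) : UU n ⊆ XX := by
  rintro _ ⟨k, -, w, h, rfl⟩
  exact h.mem

theorem UU_mono : Monotone UU := by
  rintro a b hab p ⟨k, hk, h⟩
  exact ⟨k, hk.trans hab, h⟩

theorem UU_open (n : ℕ) : ∃ V : Set Amb, IsOpen V ∧ UU n = XX ∩ V := by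
  refine ⟨interior {p | p ∈ XX → p ∈ UU n}, isOpen_interior, Subset.antisymm ?_ ?_⟩
  · rintro _ ⟨k, hk, w, h, rfl⟩
    refine ⟨h.mem, mem_interior_iff_mem_nhds.2 ?_⟩
    obtain ⟨ρ, -, -, he⟩ := sec3 h
    filter_upwards [he] with p hp hX
    exact ⟨k, hk, ρ p, hp hX⟩
  · exact fun p hp => interior_subset hp.2 hp.1

theorem descent (n : ℕ) (F : Par → ℂ) (G : ℕ → Par → ℂ)
    (hG : ∀ k ≤ n, ∀ w, Om k w → ContDiffAt ℂ 1 (G k) w)
    (hF : ∀ k ≤ n, ∀ w, Om k w → w 0 ≠ 0 → G k w = F (sh k w)) :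
    ∃ f : Amb → ℂ, Hol (UU n) f ∧ ∀ k ≤ n, ∀ w, Om k w → f (Psi w) = G k w := by
  classical
  have h1 : ∀ p : Amb, ∃ a : ℂ, ∀ k ≤ n, ∀ w, Om k w → Psi w = p → a = G k w := by
    intro p
    by_cases hp : p ∈ UU n
    · obtain ⟨k, hk, w, h, rfl⟩ := hp
      refine ⟨G k w, fun k' hk' w' h' e => ?_⟩
      rcases cons h h' e.symm with ⟨rfl, rfl⟩ | ⟨a, b, c⟩
      · rfl
      · rw [hF k hk w h a, hF k' hk' w' h' b, c]
    · exact ⟨0, fun k hk w h e => absurd ⟨k, hk, w, h, e⟩ hp⟩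
  choose f hf using h1
  refine ⟨f, hol_of_local ?_, fun k hk w h => hf _ k hk w h rfl⟩
  rintro _ ⟨k, hk, w, h, rfl⟩
  obtain ⟨ρ, h2, h3, h4⟩ := sec3 h
  refine ⟨fun p => G k (ρ p), ContDiffAt.comp (g := G k) _ (by rw [h3]; exact hG k hk w h) h2, ?_⟩
  filter_upwards [h4] with p hp hU
  obtain ⟨a, b⟩ := hp (UU_sub n hU)
  exact hf p k hk _ a b

theorem cd_hh (p : Amb) : ContDiffAt ℂ 1 hh p := by
  unfold hh; fun_prop

theorem cd_Bp {p : Amb} (hp : ‖p 0‖ < 1) : ContDiffAt ℂ 1 Bp p :=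
  cd_BB (cd_coord 0 p) (cd_coord 1 p) (cd_coord 2 p) (cd_coord 3 p) (cd_coord 4 p) hp

theorem XX_analytic : IsAnalyticSet XX := by
  refine ⟨{p | ‖p 0‖ < 1 / 100}, isOpen_lt (by fun_prop) continuous_const, 2,
    ![Bp, fun p => p 0 * p 5 - hh p], fun i p hp => ?_, ?_⟩
  · refine DifferentiableAt.differentiableWithinAt (ContDiffAt.differentiableAt ?_ one_ne_zero)
    fin_cases i
    · exact cd_Bp (lt_trans hp (by norm_num))
    · exact ((cd_coord 0 p).mul (cd_coord 5 p)).sub (cd_hh p)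
  · ext p
    simp [XX, Fin.forall_fin_two, sub_eq_zero]

theorem XX_stein : IsStein XX := by
  refine isStein_of_limit fun K hK hc l p hl hp => ?_
  obtain ⟨C, hC, h1⟩ := hull_bound_lt hK hc (hol_coord 0) (a := 1 / 100) (by norm_num)
    fun y hy => hy.1
  have h2 : ‖p 0‖ ≤ C :=
    le_of_tendsto ((cd_coord 0 p).continuousAt.norm.tendsto.mono_left hp) (mem_of_superset hl h1)
  have h3 : ‖p 0‖ < 1 / 100 := by linarith
  refine ⟨h3, ?_, ?_⟩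
  · exact tendsto_nhds_unique_of_eventuallyEq
      ((cd_Bp (by linarith)).continuousAt.tendsto.mono_left hp) tendsto_const_nhds
      (mem_of_superset hl fun q hq => hq.1.2.1)
  · exact tendsto_nhds_unique_of_eventuallyEq
      (((cd_coord 0 p).mul (cd_coord 5 p)).continuousAt.tendsto.mono_left hp)
      ((cd_hh p).continuousAt.tendsto.mono_left hp) (mem_of_superset hl fun q hq => hq.1.2.2)

end Pool.Agent.P.MP_0cf9ad_an
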