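import Pool.Agent.P.MP_0cf9ad_an.Stein

/-!
The union is not holomorphically convex.
-/

set_option autoImplicit false

open Metric Filter Topology Set

namespace Pool.Agent.P.MP_0cf9ad_an

noncomputable def bb (z : ℂ) : ℂ := 1 + z / 2
noncomputable def tt (z : ℂ) : ℂ := r * z / bb z
noncomputable def du (k : ℕ) (z : ℂ) : ℂ := (bb z / r) ^ k
noncomputable def dl (k : ℕ) (z : ℂ) : ℂ := (bb z / r) ^ ee k / du k z ^ (2 * k)
noncomputable def d0 (k : ℕ) (z : ℂ) : Par := ![tt z, du k z, dl k z, dl k z / r ^ k, 0]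
noncomputable def de (k : ℕ) (z : ℂ) : ℂ :=
  (1 - r) * dl k z ^ 2 * du k z / r ^ k * (bb z / (2 * r) * ∑ i ∈ Finset.range k, bb z ^ i) +
    RR (d0 k z)
/-- the discs -/
noncomputable def dd (k : ℕ) (z : ℂ) : Par := ![tt z, du k z, dl k z, dl k z / r ^ k, de k z]

theorem RR_congr {w v : Par} (h0 : w 0 = v 0) (h1 : w 1 = v 1) (h2 : w 2 = v 2) (h3 : w 3 = v 3) :
    RR w = RR v := by
  simp only [RR, h0, h1, h2, h3]

theorem hh_congr {w v : Par} (h0 : w 0 = v 0) (h1 : w 1 = v 1) (h2 : w 2 = v 2) (h3 : w 3 = v 3) :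
    hh (Psi w) = hh (Psi v) := by
  simp only [hh, Psi1, Psi2, Psi3, Psi4, h0, h1, h2, h3]

theorem bb_ge {z : ℂ} (hz : ‖z‖ < 3 / 2) : 1 / 4 ≤ ‖bb z‖ := by
  have h := abs_norm_sub_norm_le (bb z) 1
  rw [abs_le, norm_one, show bb z - 1 = z / 2 by rw [bb]; ring, norm_div] at h
  norm_num at h
  linarith [h.1]

theorem bb_ne {z : ℂ} (hz : ‖z‖ < 3 / 2) : bb z ≠ 0 := norm_pos_iff.1 (by linarith [bb_ge hz])

theorem tt_lt {z : ℂ} (hz : ‖z‖ < 3 / 2) : ‖tt z‖ < 1 / 100 := by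
  have := bb_ge hz
  rw [tt, norm_div, norm_mul, norm_r, div_lt_iff₀ (by linarith)]
  linarith

theorem tt_ne {z : ℂ} (hz : ‖z‖ < 3 / 2) : tt z ≠ r := by
  intro h
  rw [tt, div_eq_iff (bb_ne hz), mul_right_inj' r_ne, bb] at h
  have : z = 2 := by linear_combination 2 * h
  rw [this] at hz
  norm_num at hz

theorem du_ne {z : ℂ} (hz : ‖z‖ < 3 / 2) (k : ℕ) : du k z ≠ 0 :=
  pow_ne_zero _ (div_ne_zero (bb_ne hz) r_ne)

theorem dl_ne {z : ℂ} (hz : ‖z‖ < 3 / 2) (k : ℕ) : dl k z ≠ 0 :=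
  div_ne_zero (pow_ne_zero _ (div_ne_zero (bb_ne hz) r_ne)) (pow_ne_zero _ (du_ne hz k))

theorem Om_dd {z : ℂ} (hz : ‖z‖ < 3 / 2) (k : ℕ) : Om k (dd k z) := by
  have h1 := dl_ne hz k
  have h2 := r_ne
  have h3 := bb_ne hz
  refine ⟨tt_lt hz, tt_ne hz, du_ne hz k, h1, ?_, ?_⟩
  · change ‖r ^ k * (dl k z / r ^ k) / dl k z - 1‖ < 1 / 2
    rw [show r ^ k * (dl k z / r ^ k) / dl k z = 1 by field_simp]
    norm_num
  · rw [hh_Psi (lt_trans (tt_lt hz) (by norm_num)),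
      RR_congr (w := dd k z) (v := d0 k z) rfl rfl rfl rfl]
    change tt z * de k z = (1 - r) * dl k z * du k z * (dl k z * du k z - dl k z / r ^ k) +
      tt z * RR (d0 k z)
    have h4 := geom_sum_mul (bb z) k
    have h5 : tt z * (bb z / (2 * r)) = bb z - 1 := by
      rw [tt]; field_simp; rw [bb]; ring
    have h6 : du k z = bb z ^ k / r ^ k := div_pow _ _ _
    rw [de]
    linear_combination ((1 - r) * dl k z ^ 2 * du k z / r ^ k *
      ∑ i ∈ Finset.range k, bb z ^ i) * h5 + ((1 - r) * dl k z ^ 2 * du k z / r ^ k) * h4 -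
      ((1 - r) * dl k z ^ 2 * du k z) * h6

theorem cd_tt {z : ℂ} (hz : ‖z‖ < 3 / 2) : ContDiffAt ℂ 1 tt z :=
  ContDiffAt.div (by fun_prop) (by unfold bb; fun_prop) (bb_ne hz)

theorem cd_dd {z : ℂ} (hz : ‖z‖ < 3 / 2) (k : ℕ) : ContDiffAt ℂ 1 (dd k) z := by
  have h0 : ContDiffAt ℂ 1 bb z := by unfold bb; fun_prop
  have h1 := cd_tt hz
  have h2 : ContDiffAt ℂ 1 (du k) z := by unfold du; fun_prop
  have h3 : ContDiffAt ℂ 1 (dl k) z :=
    ContDiffAt.div (by fun_prop) (h2.pow _) (pow_ne_zero _ (du_ne hz k))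
  have h4 : ContDiffAt ℂ 1 (fun y => dl k y / r ^ k) z := h3.div_const _
  have h5 : ContDiffAt ℂ 1 (fun y => RR (d0 k y)) z :=
    cd_RR (g := d0 k) h1 h2 h3 h4 (lt_trans (tt_lt hz) (by norm_num)) (du_ne hz k)
  have h6 : ContDiffAt ℂ 1 (de k) z := by unfold de; fun_prop
  rw [contDiffAt_pi]
  intro i
  fin_cases i
  exacts [h1, h2, h3, h4, h6]

noncomputable def k0 (x : ℂ × ℂ × ℂ) : Par := ![tt x.1, x.2.1, x.2.2, x.2.2, 0]
noncomputable def k1 (x : ℂ × ℂ × ℂ) : Par :=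
  ![tt x.1, x.2.1, x.2.2, x.2.2, hh (Psi (k0 x)) / tt x.1]

def T3 : Set (ℂ × ℂ × ℂ) := sphere 0 1 ×ˢ sphere 0 1 ×ˢ sphere 0 1

theorem T3_norm {x : ℂ × ℂ × ℂ} (h : x ∈ T3) : ‖x.1‖ = 1 ∧ ‖x.2.1‖ = 1 ∧ ‖x.2.2‖ = 1 := by
  simpa [T3] using h

theorem tt_ne_zero {z : ℂ} (h : ‖z‖ = 1) : tt z ≠ 0 :=
  div_ne_zero (mul_ne_zero r_ne (norm_pos_iff.1 (by linarith))) (bb_ne (by linarith))

theorem Om_k1 {x : ℂ × ℂ × ℂ} (h : x ∈ T3) : Om 0 (k1 x) := by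
  obtain ⟨h1, h2, h3⟩ := T3_norm h
  have h4 : x.2.2 ≠ 0 := norm_pos_iff.1 (by linarith)
  refine ⟨tt_lt (by linarith), tt_ne (by linarith), norm_pos_iff.1 (by change 0 < ‖x.2.1‖; linarith),
    h4, ?_, ?_⟩
  · change ‖r ^ 0 * x.2.2 / x.2.2 - 1‖ < 1 / 2
    simp [h4]
  · rw [hh_congr (w := k1 x) (v := k0 x) rfl rfl rfl rfl]
    exact mul_div_cancel₀ _ (tt_ne_zero h1)

theorem cd_k1 {x : ℂ × ℂ × ℂ} (h : x ∈ T3) : ContDiffAt ℂ 1 (fun y => Psi (k1 y)) x := by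
  obtain ⟨h1, h2, h3⟩ := T3_norm h
  have a1 : ContDiffAt ℂ 1 (fun y : ℂ × ℂ × ℂ => tt y.1) x :=
    ContDiffAt.comp (g := tt) x (cd_tt (by linarith)) contDiffAt_fst
  have a2 : ContDiffAt ℂ 1 (fun y : ℂ × ℂ × ℂ => y.2.1) x := by fun_prop
  have a3 : ContDiffAt ℂ 1 (fun y : ℂ × ℂ × ℂ => y.2.2) x := by fun_prop
  have a4 : ContDiffAt ℂ 1 k0 x := by
    rw [contDiffAt_pi]
    intro i
    fin_cases i
    exacts [a1, a2, a3, a3, contDiffAt_const]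
  have a5 : ContDiffAt ℂ 1 (fun y => hh (Psi (k0 y))) x :=
    ContDiffAt.comp (g := hh) x (cd_hh _) (cd_Psi a4 (Om_k1 h).t_lt_one (Om_k1 h).x_ne)
  refine cd_Psi ?_ (Om_k1 h).t_lt_one (Om_k1 h).x_ne
  rw [contDiffAt_pi]
  intro i
  fin_cases i
  exacts [a1, a2, a3, a3, a5.div a1 (tt_ne_zero h1)]

/-- the compact set carrying the boundaries of all discs -/
def KK : Set Amb := (fun y => Psi (k1 y)) '' T3

theorem KK_compact : IsCompact KK :=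
  ((isCompact_sphere _ _).prod ((isCompact_sphere _ _).prod
    (isCompact_sphere _ _))).image_of_continuousOn
    fun _ h => (cd_k1 h).continuousAt.continuousWithinAt

theorem KK_sub : KK ⊆ ⋃ n, UU n := by
  rintro _ ⟨x, h, rfl⟩
  exact mem_iUnion.2 ⟨0, 0, le_rfl, _, Om_k1 h, rfl⟩

theorem bdry_mem {z : ℂ} (hz : ‖z‖ = 1) (k : ℕ) : Psi (dd k z) ∈ KK := by
  have h := Om_dd (z := z) (by linarith) k
  have h0 := tt_ne_zero hz
  have h1 := bb_ne (z := z) (by linarith)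
  have h2 := du_ne (z := z) (by linarith) k
  have h3 := r_ne
  have e := Psi_sh h.t_lt_one h0 h.x_ne k
  have h4 : tt z * (bb z / r) = z := by rw [tt]; field_simp
  have e1 : sh k (dd k z) 1 = z ^ k := by
    change tt z ^ k * (bb z / r) ^ k = _
    rw [← mul_pow, h4]
  have e2 : dl k z * (tt z ^ ee k * du k z ^ (2 * k)) = z ^ ee k := by
    have h5 : tt z ^ ee k * (bb z / r) ^ ee k = z ^ ee k := by rw [← mul_pow, h4]
    rw [dl, ← h5]
    field_simp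
  have e3 : sh k (dd k z) 3 = z ^ ee k := by
    change dl k z / r ^ k * (r ^ k * (tt z ^ ee k * du k z ^ (2 * k))) = _
    rw [← e2]; field_simp
  refine ⟨(z, z ^ k, z ^ ee k), by simp [T3, hz], ?_⟩
  rw [← e]
  have e4 : hh (Psi (k0 (z, z ^ k, z ^ ee k))) = hh (Psi (sh k (dd k z))) :=
    hh_congr rfl e1.symm e2.symm e3.symm
  refine congrArg Psi (par_ext rfl e1.symm e2.symm e3.symm ?_)
  change hh (Psi (k0 (z, z ^ k, z ^ ee k))) / tt z = de k z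
  rw [e4, ← (h.sh h0).eq]
  exact mul_div_cancel_left₀ _ h0

theorem centre_mem (k : ℕ) : Psi (dd k 0) ∈ hull (⋃ n, UU n) KK := by
  have hU : ∀ z : ℂ, ‖z‖ < 3 / 2 → Psi (dd k z) ∈ ⋃ n, UU n := fun z hz =>
    mem_iUnion.2 ⟨k, k, le_rfl, _, Om_dd hz k, rfl⟩
  refine ⟨hU 0 (by norm_num), fun f hf => ?_⟩
  have hd : ∀ z ∈ closedBall (0 : ℂ) 1, DifferentiableAt ℂ (fun w => f (Psi (dd k w))) z := by
    intro z hz
    have h1 : ‖z‖ < 3 / 2 := by linarith [mem_closedBall_zero_iff.1 hz]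
    refine hf.comp_diff ((cd_Psi (cd_dd h1 k) (Om_dd h1 k).t_lt_one
      (Om_dd h1 k).x_ne).differentiableAt one_ne_zero) ?_
    exact (continuous_norm.continuousAt.eventually (gt_mem_nhds h1)).mono hU
  refine Complex.norm_le_of_forall_mem_frontier_norm_le (U := ball (0 : ℂ) 1)
    (f := fun w => f (Psi (dd k w))) isBounded_ball
    (DifferentiableOn.diffContOnCl (by
      rw [closure_ball _ one_ne_zero]
      exact fun z hz => (hd z hz).differentiableWithinAt)) (fun z hz => ?_)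
    (subset_closure (mem_ball_self one_pos))
  rw [frontier_ball _ one_ne_zero, mem_sphere_zero_iff_norm] at hz
  exact le_sSup_of_mem KK_sub KK_compact hf (bdry_mem hz k)

theorem centre_le (k : ℕ) :
    ‖Psi (dd k 0) 1‖ + ‖Psi (dd k 0) 2‖ ≤ 3 * (1 / 1000) ^ ee k := by
  have h0 : ‖(0 : ℂ)‖ < 1 := by simp
  have e1 : Psi (dd k 0) 1 = dl k 0 * du k 0 := by
    change dl k 0 * Qv 1 (tt 0) (du k 0) = _
    simp [tt, Qv, QQ_eq h0]
  have e2 : Psi (dd k 0) 2 = dl k 0 * (1 + du k 0 ^ 2) := by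
    change dl k 0 * Pv 1 (tt 0) (du k 0) = _
    simp [tt, Pv, PP_eq h0]
  have n0 : ‖bb 0 / r‖ = 1000 := by simp [bb, norm_r]
  have n1 : ‖du k 0‖ = 1000 ^ k := by rw [du, norm_pow, n0]
  have n2 : ‖dl k 0‖ * ‖du k 0‖ ^ 2 = (1 / 1000) ^ ee k := by
    rw [dl, norm_div, norm_pow, norm_pow, n0, n1, ← pow_mul, ← pow_mul,
      show k * (2 * k) = ee k + ee k + k * 2 by
        unfold ee
        rcases k with _ | k
        · simp
        · simp only [Nat.add_sub_cancel]; ring,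
      pow_add, pow_add, one_div, inv_pow]
    field_simp
  have n3 : 1 ≤ ‖du k 0‖ := by rw [n1]; exact one_le_pow₀ (by norm_num)
  have n4 : ‖1 + du k 0 ^ 2‖ ≤ 1 + ‖du k 0‖ ^ 2 := by
    have := norm_add_le 1 (du k 0 ^ 2)
    rwa [norm_one, norm_pow] at this
  rw [e1, e2, norm_mul, norm_mul, ← n2]
  have n5 := norm_nonneg (dl k 0)
  have n6 : ‖du k 0‖ + ‖1 + du k 0 ^ 2‖ ≤ 3 * ‖du k 0‖ ^ 2 := by nlinarith
  nlinarith

theorem union_not_stein : ¬ IsStein (⋃ n, UU n) := by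
  intro h
  have hc := h.1 KK KK_sub KK_compact
  obtain ⟨p, hp, hmin⟩ := hc.exists_isMinOn ⟨_, centre_mem 0⟩
    (f := fun q : Amb => ‖q 1‖ + ‖q 2‖) (by fun_prop)
  have hpos : 0 < ‖p 1‖ + ‖p 2‖ := by
    obtain ⟨n, k, -, w, hw, rfl⟩ := mem_iUnion.1 hp.1
    rcases vec_ne hw.t_lt (Or.inl rfl) hw.x_ne with h1 | h1
    · exact add_pos_of_pos_of_nonneg (norm_pos_iff.2 (mul_ne_zero hw.l_ne h1)) (norm_nonneg _)
    · exact add_pos_of_nonneg_of_pos (norm_nonneg _) (norm_pos_iff.2 (mul_ne_zero hw.l_ne h1))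
  obtain ⟨j, hj⟩ := exists_pow_lt_of_lt_one (show 0 < (‖p 1‖ + ‖p 2‖) / 3 by positivity)
    (show (1 / 1000 : ℝ) < 1 by norm_num)
  have h1 : ‖p 1‖ + ‖p 2‖ ≤ _ := hmin (centre_mem (j + 1))
  have h2 := centre_le (j + 1)
  have h3 : (1 / 1000 : ℝ) ^ ee (j + 1) ≤ (1 / 1000) ^ j :=
    pow_le_pow_of_le_one (by norm_num) (by norm_num) (by
      unfold ee; simp only [Nat.add_sub_cancel]; nlinarith)
  linarith

end Pool.Agent.P.MP_0cf9ad_an
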