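import Pool.Agent.P.MP_0cf9ad_an.Descent

/-!
Holomorphic functions on the open subsets.
-/

set_option autoImplicit false

open Metric Filter Topology Set

namespace Pool.Agent.P.MP_0cf9ad_an

noncomputable def RR (w : Par) : ℂ :=
  r * w 2 * w 3 * w 1 * ((1 + w 1 ^ 2) * QR (w 0) (r * w 1 ^ 2) + PR (w 0) (1 * w 1 ^ 2) +
      w 0 * PR (w 0) (1 * w 1 ^ 2) * QR (w 0) (r * w 1 ^ 2)) -
    w 2 * w 3 * w 1 * (PR (w 0) (r * w 1 ^ 2) + QR (w 0) (1 * w 1 ^ 2) * (1 + r * w 1 ^ 2) +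
      w 0 * QR (w 0) (1 * w 1 ^ 2) * PR (w 0) (r * w 1 ^ 2)) +
    (1 - r) * w 2 ^ 2 * w 1 ^ 2 * (2 * QR (w 0) (1 * w 1 ^ 2) + w 0 * QR (w 0) (1 * w 1 ^ 2) ^ 2)

theorem hh_Psi {w : Par} (ht : ‖w 0‖ < 1) :
    hh (Psi w) = (1 - r) * w 2 * w 1 * (w 2 * w 1 - w 3) + w 0 * RR w := by
  simp only [hh, Psi1, Psi2, Psi3, Psi4, Pv, Qv, PP_eq ht, QQ_eq ht, RR]
  ring

theorem cd_RR {E : Type} [NormedAddCommGroup E] [NormedSpace ℂ E] {g : E → Par} {x : E}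
    (h0 : ContDiffAt ℂ 1 (fun y => g y 0) x) (h1 : ContDiffAt ℂ 1 (fun y => g y 1) x)
    (h2 : ContDiffAt ℂ 1 (fun y => g y 2) x) (h3 : ContDiffAt ℂ 1 (fun y => g y 3) x)
    (ht : ‖g x 0‖ < 1) (hx : g x 1 ≠ 0) : ContDiffAt ℂ 1 (fun y => RR (g y)) x := by
  have hr := r_ne
  have a1 := cd_PR h0 (Y := fun y => 1 * g y 1 ^ 2) (by fun_prop) ht (by simp [hx])
  have a2 := cd_PR h0 (Y := fun y => r * g y 1 ^ 2) (by fun_prop) ht (by positivity)
  have a3 := cd_QR h0 (Y := fun y => 1 * g y 1 ^ 2) (by fun_prop) ht (by simp [hx])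
  have a4 := cd_QR h0 (Y := fun y => r * g y 1 ^ 2) (by fun_prop) ht (by positivity)
  unfold RR
  fun_prop

theorem one_sub_r : (1 - r) ≠ 0 := by norm_num [r]

noncomputable def xi (w : Par) : ℂ := (w 4 - RR w) / ((1 - r) * w 2 * w 3 * w 1)

/-- the inverse of the normalised fibre coordinate -/
noncomputable def iy (w : Par) : ℂ := w 3 / w 2 / w 1

theorem Om.iy_ne {k : ℕ} {w : Par} (h : Om k w) : iy w ≠ 0 :=
  div_ne_zero (div_ne_zero h.m_ne h.l_ne) h.x_ne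

theorem Om.xi_eq {k : ℕ} {w : Par} (h : Om k w) : w 0 * xi w * iy w = 1 - iy w := by
  have h1 := h.eq
  rw [hh_Psi h.t_lt_one] at h1
  have := h.x_ne
  have := h.l_ne
  have := h.m_ne
  have := one_sub_r
  rw [xi, iy]
  field_simp
  linear_combination h1

theorem Om.cd_xi {k : ℕ} {w : Par} (h : Om k w) : ContDiffAt ℂ 1 xi w :=
  ((cd_coord 4 w).sub (cd_RR (g := fun y => y) (cd_coord 0 w) (cd_coord 1 w) (cd_coord 2 w)
    (cd_coord 3 w) h.t_lt_one h.x_ne)).div (by fun_prop)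
    (mul_ne_zero (mul_ne_zero (mul_ne_zero one_sub_r h.l_ne) h.m_ne) h.x_ne)

theorem Om.cd_iy {k : ℕ} {w : Par} (h : Om k w) : ContDiffAt ℂ 1 iy w :=
  ((cd_coord 3 w).div (cd_coord 2 w) h.l_ne).div (cd_coord 1 w) h.x_ne

noncomputable def phi (j : ℕ) (ε : ℂ) (w : Par) : ℂ := 1 - (w 0 / r) ^ j * (1 + ε * w 0) * iy w

noncomputable def gg (k j : ℕ) (ε : ℂ) (w : Par) : ℂ :=
  if j < k then w 0 ^ (k - j) - r ^ (k - j) * (1 + ε * w 0) * iy w
  else if j = k then (xi w - ε) * iy w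
  else 1 - (w 0 / r) ^ (j - k) * (1 + ε * w 0) * iy w

theorem iy_sh {w : Par} (h0 : w 0 ≠ 0) (hx : w 1 ≠ 0) (k : ℕ) :
    iy (sh k w) = (r / w 0) ^ k * iy w := by
  rw [iy, sh_ratio h0 hx, sh1, iy, div_pow]
  field_simp

theorem phi_sh {k : ℕ} {w : Par} (h : Om k w) (h0 : w 0 ≠ 0) (j : ℕ) (ε : ℂ) :
    phi j ε (sh k w) * w 0 ^ (k - j) = w 0 ^ (if j = k then 1 else 0) * gg k j ε w := by
  have hr := r_ne
  rw [phi, iy_sh h0 h.x_ne, sh0, gg]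
  rcases lt_trichotomy j k with hj | rfl | hj
  · obtain ⟨i, rfl⟩ := Nat.exists_eq_add_of_le hj.le
    rw [if_pos hj, if_neg hj.ne, Nat.add_sub_cancel_left, div_pow, div_pow]
    field_simp
    ring
  · rw [if_neg (lt_irrefl _), if_pos rfl, if_pos rfl, Nat.sub_self, div_pow, div_pow]
    field_simp
    linear_combination -h.xi_eq
  · obtain ⟨i, rfl⟩ := Nat.exists_eq_add_of_le hj.le
    rw [if_neg hj.ne', if_neg (not_lt.2 hj.le), if_neg hj.ne', Nat.add_sub_cancel_left,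
      Nat.sub_eq_zero_of_le hj.le, div_pow, div_pow, div_pow]
    field_simp
    ring

theorem Om.cd_gg {k : ℕ} {w : Par} (h : Om k w) (j : ℕ) (ε : ℂ) : ContDiffAt ℂ 1 (gg k j ε) w := by
  have h1 := h.cd_xi
  have h2 := h.cd_iy
  unfold gg
  split_ifs <;> fun_prop

theorem exists_mult (a : ℕ → ℕ) :
    ∃ m : ℕ → ℕ, ∀ k, m k = a k + ∑ j ∈ Finset.range k, (k - j) * m j := by
  let s : ℕ → ℕ × ℕ := fun n => Nat.rec (0, 0)
    (fun k p => (p.1 + (a k + p.2), p.2 + (p.1 + (a k + p.2)))) n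
  have hs : ∀ k, s (k + 1) = ((s k).1 + (a k + (s k).2), (s k).2 + ((s k).1 + (a k + (s k).2))) :=
    fun _ => rfl
  have key : ∀ k, (s k).1 = ∑ j ∈ Finset.range k, (a j + (s j).2) ∧
      (s k).2 = ∑ j ∈ Finset.range k, (k - j) * (a j + (s j).2) := by
    intro k
    induction k with
    | zero => exact ⟨rfl, rfl⟩
    | succ k ih =>
      rw [hs]
      refine ⟨by rw [Finset.sum_range_succ, ← ih.1], ?_⟩
      have : ∑ j ∈ Finset.range k, (k + 1 - j) * (a j + (s j).2) =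
          ∑ j ∈ Finset.range k, (k - j) * (a j + (s j).2) +
            ∑ j ∈ Finset.range k, (a j + (s j).2) := by
        rw [← Finset.sum_add_distrib]
        refine Finset.sum_congr rfl fun j hj => ?_
        rw [Nat.sub_add_comm (Finset.mem_range.1 hj).le]; ring
      rw [Finset.sum_range_succ, this, ← ih.1, ← ih.2]
      simp only [Nat.add_sub_cancel_left]
      ring
  exact ⟨fun k => a k + (s k).2, fun k => by rw [← (key k).2]⟩

noncomputable def Pi0 (n : ℕ) (m : ℕ → ℕ) (ε : ℂ) (w : Par) : ℂ :=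
  ∏ j ∈ Finset.range (n + 1), phi j ε w ^ m j

noncomputable def GG (n : ℕ) (m : ℕ → ℕ) (ε : ℂ) (k : ℕ) (w : Par) : ℂ :=
  ∏ j ∈ Finset.range (n + 1), gg k j ε w ^ m j

theorem Pi0_sh {a m : ℕ → ℕ} (hm : ∀ k, m k = a k + ∑ j ∈ Finset.range k, (k - j) * m j)
    {n k : ℕ} (hk : k ≤ n) {w : Par} (h : Om k w) (h0 : w 0 ≠ 0) (ε : ℂ) :
    Pi0 n m ε (sh k w) = w 0 ^ a k * GG n m ε k w := by
  have h1 : ∏ j ∈ Finset.range (n + 1), (phi j ε (sh k w) * w 0 ^ (k - j)) ^ m j =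
      ∏ j ∈ Finset.range (n + 1), (w 0 ^ (if j = k then 1 else 0) * gg k j ε w) ^ m j :=
    Finset.prod_congr rfl fun j _ => by rw [phi_sh h h0]
  simp only [mul_pow, Finset.prod_mul_distrib, ← pow_mul, Finset.prod_pow_eq_pow_sum] at h1
  have h2 : ∑ j ∈ Finset.range (n + 1), (if j = k then 1 else 0) * m j = m k := by
    simp [Nat.lt_succ_of_le hk]
  have h3 : ∑ j ∈ Finset.range (n + 1), (k - j) * m j = ∑ j ∈ Finset.range k, (k - j) * m j := by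
    refine (Finset.sum_subset (Finset.range_mono (by omega)) fun j _ hj => ?_).symm
    rw [Finset.mem_range, not_lt] at hj
    rw [Nat.sub_eq_zero_of_le hj, zero_mul]
  rw [h2, h3, hm k, pow_add] at h1
  apply mul_right_cancel₀ (pow_ne_zero (∑ j ∈ Finset.range k, (k - j) * m j) h0)
  rw [Pi0, h1, GG]; ring

theorem Om.cd_GG {k : ℕ} {w : Par} (h : Om k w) (n : ℕ) (m : ℕ → ℕ) (ε : ℂ) :
    ContDiffAt ℂ 1 (GG n m ε k) w :=
  contDiffAt_prod (f := fun j w => gg k j ε w ^ m j) fun j _ => (h.cd_gg j ε).pow _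

theorem ee_mono : Monotone ee := monotone_nat_of_le_succ fun k => by rw [ee_succ]; omega

/-- a family of chart functions that is bounded on every hull -/
def Bdd (n : ℕ) (G : ℕ → Par → ℂ) : Prop :=
  ∀ K : Set Amb, ∃ C : ℝ, 0 < C ∧ ∀ k ≤ n, ∀ w, Om k w → Psi w ∈ hull (UU n) K → ‖G k w‖ ≤ C

theorem bdd_of (n : ℕ) (F : Par → ℂ) (G : ℕ → Par → ℂ)
    (hG : ∀ k ≤ n, ∀ w, Om k w → ContDiffAt ℂ 1 (G k) w)
    (hF : ∀ k ≤ n, ∀ w, Om k w → w 0 ≠ 0 → G k w = F (sh k w)) : Bdd n G := by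
  intro K
  obtain ⟨f, h1, h2⟩ := descent n F G hG hF
  obtain ⟨C, hC, h3⟩ := hull_bound (K := K) h1
  exact ⟨C, hC, fun k hk w h hw => by rw [← h2 k hk w h]; exact h3 _ hw⟩

theorem bdd_x (n : ℕ) : Bdd n fun k w => w 0 ^ k * w 1 :=
  bdd_of n (fun w => w 1) _ (fun _ _ _ _ => by fun_prop) fun _ _ _ _ _ => rfl

theorem bdd_ix (n : ℕ) : Bdd n fun k w => w 0 ^ (n - k) / w 1 := by
  refine bdd_of n (fun w => w 0 ^ n / w 1) _
    (fun _ _ w h => ContDiffAt.div (by fun_prop) (cd_coord 1 w) h.x_ne) fun k hk w h h0 => ?_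
  obtain ⟨i, rfl⟩ := Nat.exists_eq_add_of_le hk
  have := h.x_ne
  simp only [sh0, sh1, Nat.add_sub_cancel_left]
  field_simp
  ring

theorem bdd_il (n : ℕ) : Bdd n fun k w => w 0 ^ (ee n - ee k) / (w 2 * w 1 ^ (2 * k)) := by
  refine bdd_of n (fun w => w 0 ^ ee n / w 2) _
    (fun _ _ w h => ContDiffAt.div (by fun_prop) (by fun_prop)
      (mul_ne_zero h.l_ne (pow_ne_zero _ h.x_ne))) fun k hk w h h0 => ?_
  obtain ⟨i, hi⟩ := Nat.exists_eq_add_of_le (ee_mono hk)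
  have := h.x_ne
  have := h.l_ne
  simp only [sh0, sh2, hi, Nat.add_sub_cancel_left]
  field_simp
  ring

theorem bdd_one {m : ℕ → ℕ} (hm : ∀ k, m k = 1 + ∑ j ∈ Finset.range k, (k - j) * m j) (n : ℕ) :
    Bdd n (GG n m 0) := by
  refine bdd_of n (fun w => Pi0 n m 0 w / w 0) _ (fun _ _ w h => h.cd_GG n m 0)
    fun k hk w h h0 => ?_
  simp only [sh0]
  rw [Pi0_sh (a := fun _ => 1) hm hk h h0]
  field_simp

theorem bdd_ee {m : ℕ → ℕ} (hm : ∀ k, m k = ee k + ∑ j ∈ Finset.range k, (k - j) * m j) (n : ℕ)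
    (ε : ℂ) : Bdd n fun k w => GG n m ε k w / (w 2 * w 1 ^ (2 * k)) := by
  refine bdd_of n (fun w => Pi0 n m ε w / w 2) _ (fun _ _ w h => (h.cd_GG n m ε).div (by fun_prop)
    (mul_ne_zero h.l_ne (pow_ne_zero _ h.x_ne))) fun k hk w h h0 => ?_
  have := h.x_ne
  have := h.l_ne
  simp only [sh2]
  rw [Pi0_sh hm hk h h0]
  field_simp

theorem bdd_s (n : ℕ) {K : Set Amb} (hK : K ⊆ UU n) (hc : IsCompact K) : ∃ C : ℝ, C < 1 / 2 ∧
    ∀ k ≤ n, ∀ w, Om k w → Psi w ∈ hull (UU n) K → ‖r ^ k * w 3 / w 2 - 1‖ ≤ C := by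
  obtain ⟨f, h1, h2⟩ := descent n (fun w => w 3 / w 2 - 1) (fun k w => r ^ k * w 3 / w 2 - 1)
    (fun _ _ w h => (ContDiffAt.div (by fun_prop) (cd_coord 2 w) h.l_ne).sub contDiffAt_const)
    fun k _ w h h0 => by simp only [sh_ratio h0 h.x_ne]
  obtain ⟨C, hC, h3⟩ := hull_bound_lt hK hc h1 (a := 1 / 2) (by norm_num) (by
    rintro _ ⟨k, hk, w, h, rfl⟩
    rw [h2 k hk w h]; exact h.s_lt)
  exact ⟨C, hC, fun k hk w h hw => by rw [← h2 k hk w h]; exact h3 _ hw⟩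

end Pool.Agent.P.MP_0cf9ad_an
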