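import Pool.Agent.P.MP_0cf9ad_an.Biquad

/-!
Local holomorphic inverses of the theta parametrisation.
-/

set_option autoImplicit false

open Metric Filter Topology Set

namespace Pool.Agent.P.MP_0cf9ad_an

variable {E : Type} [NormedAddCommGroup E] [NormedSpace ℂ E]

theorem ne_of_or {c : ℂ} (hc : c = 1 ∨ c = r) : c ≠ 0 := by
  rcases hc with rfl | rfl; exacts [one_ne_zero, r_ne]

theorem ratio {c : ℂ} (hc : c = 1 ∨ c = r) {T X A B : E → ℂ} {p0 : E} {l : ℂ}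
    (hT : ContDiffAt ℂ 1 T p0) (hX : ContDiffAt ℂ 1 X p0) (hA : ContDiffAt ℂ 1 A p0)
    (hB : ContDiffAt ℂ 1 B p0) (ht : ‖T p0‖ < 1 / 100) (hx : X p0 ≠ 0)
    (h1 : A p0 = l * Qv c (T p0) (X p0)) (h2 : B p0 = l * Pv c (T p0) (X p0)) :
    ∃ L : E → ℂ, ContDiffAt ℂ 1 L p0 ∧ L p0 = l ∧ ∀ᶠ p in 𝓝 p0,
      ell c (T p) (X p) (A p) (B p) = 0 →
        A p = L p * Qv c (T p) (X p) ∧ B p = L p * Pv c (T p) (X p) := by
  have hQ := cd_Q (ne_of_or hc) hT hX (by linarith) hx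
  have hP := cd_P (ne_of_or hc) hT hX (by linarith) hx
  rcases vec_ne ht hc hx with h | h
  · refine ⟨fun p => A p / Qv c (T p) (X p), hA.div hQ h, by simp [h1, h], ?_⟩
    filter_upwards [hQ.continuousAt.eventually_ne h] with p hp h0
    rw [ell] at h0
    refine ⟨by field_simp, ?_⟩
    field_simp
    linear_combination h0
  · refine ⟨fun p => B p / Pv c (T p) (X p), hB.div hP h, by simp [h2, h], ?_⟩
    filter_upwards [hP.continuousAt.eventually_ne h] with p hp h0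
    rw [ell] at h0
    refine ⟨?_, by field_simp⟩
    field_simp
    linear_combination -h0

theorem solve [CompleteSpace E] {d : ℂ} (hd : d ≠ 0) {T A B : E → ℂ} {p0 : E} {m x : ℂ}
    (hT : ContDiffAt ℂ 1 T p0) (hA : ContDiffAt ℂ 1 A p0) (hB : ContDiffAt ℂ 1 B p0)
    (ht : ‖T p0‖ < 1 / 100) (hx : x ≠ 0) (hm : m ≠ 0)
    (h1 : A p0 = m * Qv d (T p0) x) (h2 : B p0 = m * Pv d (T p0) x)
    (h3 : th (T p0) (d * x * x) ≠ 0) :
    ∃ X : E → ℂ, ContDiffAt ℂ 1 X p0 ∧ X p0 = x ∧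
      ∀ᶠ p in 𝓝 p0, ell d (T p) (X p) (A p) (B p) = 0 := by
  set f : E × ℂ → ℂ := fun q => ell d (T q.1) q.2 (A q.1) (B q.1) with hf
  have lift : ∀ {G : E → ℂ}, ContDiffAt ℂ 1 G p0 →
      ContDiffAt ℂ 1 (fun q : E × ℂ => G q.1) (p0, x) := fun {G} hG =>
    ContDiffAt.comp (g := G) (f := fun q : E × ℂ => q.1) (p0, x) hG contDiffAt_fst
  have cdf : ContDiffAt ℂ 1 f (p0, x) :=
    cd_ell hd (lift hT) contDiffAt_snd (lift hA) (lift hB) (by simp only; linarith) hx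
  obtain ⟨D, hD0, hD⟩ := th_deriv ht
  have hG : DifferentiableAt ℂ (fun y => th (T p0) (d * x * y)) x :=
    (cd_th (T := fun _ : ℂ => T p0) (Y := fun y => d * x * y) (x := x) contDiffAt_const
      (by fun_prop) (by linarith) (by positivity)).differentiableAt one_ne_zero
  have e1 : HasDerivAt (fun y => th (T p0) (x / y)) (D * (-x / x ^ 2)) x := by
    have h4 : HasDerivAt (fun y : ℂ => x / y) (-x / x ^ 2) x := by
      exact ((hasDerivAt_const x x).fun_div (hasDerivAt_id' x) hx).congr_deriv (by simp)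
    have h5 : HasDerivAt (th (T p0)) D (x / x) := by rwa [div_self hx]
    exact h5.comp x h4
  have e2 := ((hasDerivAt_id x).mul (e1.mul hG.hasDerivAt)).const_mul m
  have e3 : HasDerivAt (fun y => f (p0, y)) (-(m * D * th (T p0) (d * x * x))) x := by
    refine (e2.congr_of_eventuallyEq ?_).congr_deriv ?_
    · filter_upwards [continuousAt_id.eventually_ne hx] with y hy
      have := W_th (t := T p0) (y := y) (by linarith) hd hx hy
      simp only [hf, Pi.mul_apply, id]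
      rw [← this, h1, h2, W, ell, ell]; ring
    · simp only [Pi.mul_apply, id, div_self hx, th_one ht]
      field_simp
      ring
  have e4 : HasFDerivAt (fun y => f (p0, y))
      (fderiv ℂ f (p0, x) ∘L ContinuousLinearMap.inr ℂ E ℂ) x :=
    (cdf.differentiableAt one_ne_zero).hasFDerivAt.comp x (hasFDerivAt_prodMk_right p0 x)
  have hne : -(m * D * th (T p0) (d * x * x)) ≠ 0 := by simp [hm, hD0, h3]
  have inv : (fderiv ℂ f (p0, x) ∘L ContinuousLinearMap.inr ℂ E ℂ).IsInvertible :=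
    ⟨_, (e3.hasFDerivAt_equiv hne).unique e4⟩
  refine ⟨cdf.implicitFunction one_ne_zero inv, cdf.contDiffAt_implicitFunction one_ne_zero inv,
    cdf.implicitFunction_apply_self one_ne_zero inv, ?_⟩
  filter_upwards [cdf.eventually_apply_implicitFunction one_ne_zero inv] with p hp
  simp only [hf] at hp
  rw [hp, h1, h2, ell]; ring

theorem sec [CompleteSpace E] {c d : ℂ} (hc : c = 1 ∨ c = r) (hd : d = 1 ∨ d = r)
    {T A0 A1 B0 B1 : E → ℂ} {p0 : E} {l m x : ℂ}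
    (hT : ContDiffAt ℂ 1 T p0) (hA0 : ContDiffAt ℂ 1 A0 p0) (hA1 : ContDiffAt ℂ 1 A1 p0)
    (hB0 : ContDiffAt ℂ 1 B0 p0) (hB1 : ContDiffAt ℂ 1 B1 p0)
    (ht : ‖T p0‖ < 1 / 100) (hx : x ≠ 0) (hl : l ≠ 0) (hm : m ≠ 0)
    (a0 : A0 p0 = l * Qv c (T p0) x) (a1 : A1 p0 = l * Pv c (T p0) x)
    (b0 : B0 p0 = m * Qv d (T p0) x) (b1 : B1 p0 = m * Pv d (T p0) x)
    (h1 : th (T p0) (d * x * x) ≠ 0) (h2 : th (T p0) (c / d) ≠ 0) :
    ∃ X L M : E → ℂ, ContDiffAt ℂ 1 X p0 ∧ ContDiffAt ℂ 1 L p0 ∧ ContDiffAt ℂ 1 M p0 ∧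
      X p0 = x ∧ L p0 = l ∧ M p0 = m ∧ ∀ᶠ p in 𝓝 p0,
        (B0 p = M p * Qv d (T p) (X p) ∧ B1 p = M p * Pv d (T p) (X p)) ∧
        (AA c d (T p) (X p) (A0 p) (A1 p) = 0 →
          A0 p = L p * Qv c (T p) (X p) ∧ A1 p = L p * Pv c (T p) (X p)) := by
  have hc0 := ne_of_or hc
  have hd0 := ne_of_or hd
  obtain ⟨X, hX, hX0, hXe⟩ := solve hd0 hT hB0 hB1 ht hx hm b0 b1 h1
  subst hX0
  obtain ⟨M, hM, hM0, hMe⟩ := ratio hd hT hX hB0 hB1 ht hx b0 b1
  obtain ⟨L, hL, hL0, hLe⟩ := ratio hc hT hX hA0 hA1 ht hx a0 a1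
  refine ⟨X, L, M, hX, hL, hM, rfl, hL0, hM0, ?_⟩
  have hdx : d * X p0 ≠ 0 := mul_ne_zero hd0 hx
  have h3 : ContDiffAt ℂ 1 (fun p => ell c (T p) (d * X p)⁻¹ (A0 p) (A1 p)) p0 :=
    cd_ell hc0 hT ((contDiffAt_const.mul hX).inv hdx) hA0 hA1 (by linarith) (inv_ne_zero hdx)
  have h4 : ell c (T p0) (d * X p0)⁻¹ (A0 p0) (A1 p0) ≠ 0 := by
    have h5 := W_th (t := T p0) (by linarith) hc0 hx (inv_ne_zero hdx)
    rw [show X p0 / (d * X p0)⁻¹ = d * X p0 * X p0 by field_simp,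
      show c * X p0 * (d * X p0)⁻¹ = c / d by field_simp] at h5
    have h6 : ell c (T p0) (d * X p0)⁻¹ (A0 p0) (A1 p0) = l * W c (T p0) (X p0) (d * X p0)⁻¹ := by
      rw [a0, a1, W, ell, ell]; ring
    rw [h6, h5]
    exact mul_ne_zero hl (mul_ne_zero (inv_ne_zero hdx) (mul_ne_zero h1 h2))
  filter_upwards [hXe, hMe, hLe, h3.continuousAt.eventually_ne h4,
    hX.continuousAt.eventually_ne hx] with p e1 e2 e3 e4 e5
  refine ⟨e2 e1, fun h => e3 ?_⟩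
  rw [AA] at h
  exact (mul_eq_zero.1 ((mul_eq_zero.1 h).resolve_left (by positivity))).resolve_right e4

end Pool.Agent.P.MP_0cf9ad_an
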