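import Mathlib

/-!
Two-variable series of theta type: convergence and smoothness.
-/

set_option autoImplicit false

open Metric Filter Topology Set

namespace Pool.Agent.P.MP_0cf9ad_an

/-- A normally convergent series of holomorphic functions is continuously differentiable. -/
theorem cd_tsum {E : Type} [NormedAddCommGroup E] [NormedSpace ℂ E] {ι : Type} (f : ι → E → ℂ)
    (x0 : E) {δ : ℝ} (hδ : 0 < δ) (u : ι → ℝ) (hu : Summable u)
    (hd : ∀ i, ∀ x ∈ ball x0 (2 * δ), ContDiffAt ℂ 1 (f i) x)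
    (hb : ∀ i, ∀ x ∈ ball x0 (2 * δ), ‖f i x‖ ≤ u i) :
    ContDiffAt ℂ 1 (fun x => ∑' i, f i x) x0 := by
  have hsub : ball x0 δ ⊆ ball x0 (2 * δ) := ball_subset_ball (by linarith)
  have h0 : ∀ i, 0 ≤ u i := fun i => (norm_nonneg _).trans (hb i x0 (mem_ball_self (by linarith)))
  have hD : ∀ i, ∀ x ∈ ball x0 (2 * δ), DifferentiableAt ℂ (f i) x := fun i x hx =>
    (hd i x hx).differentiableAt one_ne_zero
  have hf' : ∀ i, ∀ x ∈ ball x0 δ, ‖fderiv ℂ (f i) x‖ ≤ u i / δ := by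
    intro i x hx
    refine ContinuousLinearMap.opNorm_le_bound' _ (div_nonneg (h0 i) hδ.le) fun v hv => ?_
    have hv' : 0 < ‖v‖ := lt_of_le_of_ne (norm_nonneg _) (Ne.symm hv)
    have hmem : ∀ s ∈ closedBall (0 : ℂ) (δ / ‖v‖), x + s • v ∈ ball x0 (2 * δ) := by
      intro s hs
      rw [mem_closedBall, dist_zero_right, le_div_iff₀ hv'] at hs
      rw [mem_ball, dist_eq_norm] at hx ⊢
      have : x + s • v - x0 = (x - x0) + s • v := by abel
      rw [this]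
      have h1 := norm_add_le (x - x0) (s • v)
      rw [norm_smul] at h1
      linarith
    have hg : ∀ s ∈ closedBall (0 : ℂ) (δ / ‖v‖), DifferentiableAt ℂ (fun s : ℂ => f i (x + s • v)) s :=
      fun s hs => (hD i _ (hmem s hs)).comp s (by fun_prop)
    have hder : HasDerivAt (fun s : ℂ => f i (x + s • v)) (fderiv ℂ (f i) x v) 0 := by
      have h1 : HasDerivAt (fun s : ℂ => x + s • v) v 0 := by
        simpa using ((hasDerivAt_id (0 : ℂ)).smul_const v).const_add x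
      have h2 : HasFDerivAt (f i) (fderiv ℂ (f i) x) (x + (0 : ℂ) • v) := by
        simpa using (hD i x (hsub hx)).hasFDerivAt
      exact h2.comp_hasDerivAt (0 : ℂ) h1
    have := Complex.norm_deriv_le_of_forall_mem_sphere_norm_le (c := 0) (R := δ / ‖v‖) (C := u i)
      (f := fun s : ℂ => f i (x + s • v)) (div_pos hδ hv')
      (DifferentiableOn.diffContOnCl (by
        rw [closure_ball _ (div_pos hδ hv').ne']
        exact fun s hs => (hg s hs).differentiableWithinAt))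
      (fun s hs => hb i _ (hmem s (sphere_subset_closedBall hs)))
    rw [hder.deriv] at this
    calc _ ≤ u i / (δ / ‖v‖) := this
      _ = u i / δ * ‖v‖ := by field_simp
  have hu' : Summable fun i => u i / δ := hu.div_const δ
  rw [contDiffAt_one_iff]
  refine ⟨fun x => ∑' i, fderiv ℂ (f i) x, ball x0 δ, ball_mem_nhds _ hδ, ?_, fun x hx => ?_⟩
  · refine continuousOn_tsum (fun i x hx => ?_) hu' hf'
    exact ((hd i x (hsub hx)).continuousAt_fderiv one_ne_zero).continuousWithinAt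
  · exact hasFDerivAt_tsum_of_isPreconnected hu' isOpen_ball (convex_ball _ _).isPreconnected
      (fun i y hy => (hD i y (hsub hy)).hasFDerivAt) hf' (mem_ball_self hδ)
      (Summable.of_norm_bounded hu fun i => hb i x0 (mem_ball_self (by linarith))) hx

/-- quadratic growth of an exponent function -/
def Grow (e : ℤ → ℕ) : Prop := ∀ n : ℤ, n ^ 2 ≤ 2 * e n + |n| + 2

theorem summable_half : Summable fun n : ℤ => (1 / 2 : ℝ) ^ n.natAbs := by
  refine Summable.of_nat_of_neg ?_ ?_ <;> simpa using summable_geometric_two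

theorem summable_bound {e : ℤ → ℕ} (he : Grow e) {ρ R : ℝ} (h0 : 0 ≤ ρ) (h1 : ρ < 1) (hR : 0 ≤ R) :
    Summable fun n : ℤ => ρ ^ e n * R ^ n.natAbs := by
  obtain ⟨M, hM⟩ : ∃ M : ℕ, ρ ^ M * R ≤ 1 / 2 := by
    have := (tendsto_pow_atTop_nhds_zero_of_lt_one h0 h1).mul_const R
    rw [zero_mul] at this
    exact (this.eventually (ge_mem_nhds (by norm_num))).exists
  refine Summable.of_norm_bounded_eventually summable_half ?_
  have hfin : {n : ℤ | n.natAbs < 2 * M + 3}.Finite := by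
    refine (Set.finite_Ioo (-(2 * M + 3 : ℤ)) (2 * M + 3)).subset fun n hn => ?_
    simp only [mem_ofPred_eq] at hn
    constructor <;> omega
  filter_upwards [hfin.compl_mem_cofinite] with n hn
  simp only [mem_compl_iff, mem_ofPred_eq, not_lt] at hn
  have h2 : M * n.natAbs ≤ e n := by
    have h3 := he n
    have h4 : (n.natAbs : ℤ) = |n| := Int.natCast_natAbs n
    have h5 : n ^ 2 = |n| ^ 2 := (sq_abs n).symm
    have h6 : (2 * M + 3 : ℤ) ≤ |n| := by rw [← h4]; exact_mod_cast hn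
    have h7 : (M : ℤ) * |n| ≤ e n := by nlinarith
    rw [← h4] at h7
    exact_mod_cast h7
  rw [Real.norm_of_nonneg (by positivity)]
  calc ρ ^ e n * R ^ n.natAbs ≤ ρ ^ (M * n.natAbs) * R ^ n.natAbs := by
        gcongr ?_ * _
        exact pow_le_pow_of_le_one h0 h1.le h2
    _ = (ρ ^ M * R) ^ n.natAbs := by rw [mul_pow, pow_mul]
    _ ≤ (1 / 2) ^ n.natAbs := by gcongr

theorem norm_zpow_le {y : ℂ} {R : ℝ} (h1 : ‖y‖ ≤ R) (h2 : ‖y⁻¹‖ ≤ R) (n : ℤ) :
    ‖y ^ n‖ ≤ R ^ n.natAbs := by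
  rcases Int.eq_nat_or_neg n with ⟨k, rfl | rfl⟩
  · rw [zpow_natCast, norm_pow, Int.natAbs_natCast]; gcongr
  · rw [zpow_neg, zpow_natCast, ← inv_pow, norm_pow, Int.natAbs_neg, Int.natAbs_natCast]; gcongr

/-- the general series -/
noncomputable def S (a : ℤ → ℂ) (e : ℤ → ℕ) (t y : ℂ) : ℂ := ∑' n : ℤ, a n * t ^ e n * y ^ n

theorem term_le {a : ℤ → ℂ} (ha : ∀ n, ‖a n‖ ≤ 1) (e : ℤ → ℕ) {t y : ℂ} {ρ R : ℝ} (ht : ‖t‖ ≤ ρ)
    (h1 : ‖y‖ ≤ R) (h2 : ‖y⁻¹‖ ≤ R) (n : ℤ) :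
    ‖a n * t ^ e n * y ^ n‖ ≤ ρ ^ e n * R ^ n.natAbs := by
  have h0 : 0 ≤ ρ := (norm_nonneg _).trans ht
  rw [norm_mul, norm_mul, norm_pow]
  have h3 := norm_zpow_le h1 h2 n
  have h4 := ha n
  calc ‖a n‖ * ‖t‖ ^ e n * ‖y ^ n‖ ≤ 1 * ρ ^ e n * R ^ n.natAbs := by gcongr
    _ = _ := by ring

theorem summable_norm_term {a : ℤ → ℂ} (ha : ∀ n, ‖a n‖ ≤ 1) {e : ℤ → ℕ} (he : Grow e) {t : ℂ}
    (ht : ‖t‖ < 1) (y : ℂ) : Summable fun n : ℤ => ‖a n * t ^ e n * y ^ n‖ :=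
  Summable.of_nonneg_of_le (fun _ => norm_nonneg _)
    (term_le ha e le_rfl (le_max_left _ _) (le_max_right _ _))
    (summable_bound he (norm_nonneg _) ht ((norm_nonneg _).trans (le_max_left _ _)))

theorem hasSum_S {a : ℤ → ℂ} (ha : ∀ n, ‖a n‖ ≤ 1) {e : ℤ → ℕ} (he : Grow e) {t : ℂ}
    (ht : ‖t‖ < 1) (y : ℂ) : HasSum (fun n : ℤ => a n * t ^ e n * y ^ n) (S a e t y) :=
  (summable_norm_term ha he ht y).of_norm.hasSum

theorem cd_S {a : ℤ → ℂ} (ha : ∀ n, ‖a n‖ ≤ 1) {e : ℤ → ℕ} (he : Grow e) {t y : ℂ}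
    (ht : ‖t‖ < 1) (hy : y ≠ 0) : ContDiffAt ℂ 1 (fun p : ℂ × ℂ => S a e p.1 p.2) (t, y) := by
  have hy' : 0 < ‖y‖ := norm_pos_iff.2 hy
  set δ : ℝ := min ((1 - ‖t‖) / 4) (‖y‖ / 4) with hδ
  have hδ0 : 0 < δ := lt_min (by linarith) (by linarith)
  have hδ1 : δ ≤ (1 - ‖t‖) / 4 := min_le_left _ _
  have hδ2 : δ ≤ ‖y‖ / 4 := min_le_right _ _
  have key : ∀ p ∈ ball (t, y) (2 * δ), ‖p.1‖ ≤ (1 + ‖t‖) / 2 ∧ ‖p.2‖ ≤ 2 * ‖y‖ ∧
      ‖y‖ / 2 ≤ ‖p.2‖ := by
    intro p hp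
    rw [mem_ball, Prod.dist_eq, max_lt_iff, dist_eq_norm, dist_eq_norm] at hp
    have h1 := abs_norm_sub_norm_le p.1 t
    have h2 := abs_norm_sub_norm_le p.2 y
    rw [abs_le] at h1 h2
    simp only at hp
    refine ⟨by linarith [hp.1], by linarith [hp.2], by linarith [hp.2]⟩
  refine cd_tsum (fun n (p : ℂ × ℂ) => a n * p.1 ^ e n * p.2 ^ n) (t, y) hδ0
    (fun n => ((1 + ‖t‖) / 2) ^ e n * (max (2 * ‖y‖) (2 / ‖y‖)) ^ n.natAbs)
    (summable_bound he (by positivity) (by linarith) (by positivity)) (fun n p hp => ?_)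
    (fun n p hp => ?_)
  · have h : p.2 ≠ 0 := norm_pos_iff.1 (by linarith [(key p hp).2.2])
    have h1 : ContDiffAt ℂ 1 (fun q : ℂ × ℂ => q.2 ^ n) p := by
      rcases Int.eq_nat_or_neg n with ⟨k, rfl | rfl⟩
      · simp only [zpow_natCast]; fun_prop
      · simp only [zpow_neg, zpow_natCast]
        exact ContDiffAt.inv (by fun_prop) (pow_ne_zero _ h)
    exact ContDiffAt.mul (by fun_prop) h1
  · obtain ⟨h1, h2, h3⟩ := key p hp
    refine term_le ha e h1 (h2.trans (le_max_left _ _)) (le_trans ?_ (le_max_right _ _)) n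
    rw [norm_inv, inv_eq_one_div, div_le_div_iff₀ (by linarith) hy']
    linarith

/-- composition form -/
theorem cd_S' {E : Type} [NormedAddCommGroup E] [NormedSpace ℂ E] {a : ℤ → ℂ} (ha : ∀ n, ‖a n‖ ≤ 1)
    {e : ℤ → ℕ} (he : Grow e) {T Y : E → ℂ} {x : E} (hT : ContDiffAt ℂ 1 T x)
    (hY : ContDiffAt ℂ 1 Y x) (ht : ‖T x‖ < 1) (hy : Y x ≠ 0) :
    ContDiffAt ℂ 1 (fun p => S a e (T p) (Y p)) x :=
  ContDiffAt.comp (g := fun p : ℂ × ℂ => S a e p.1 p.2) (f := fun p => (T p, Y p)) x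
    (cd_S ha he ht hy) (hT.prodMk hY)

end Pool.Agent.P.MP_0cf9ad_an
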