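import Pool.Agent.P.MP_0cf9ad_an.Funcs

/-!
The open subsets are Stein.
-/

set_option autoImplicit false

open Metric Filter Topology Set

namespace Pool.Agent.P.MP_0cf9ad_an

theorem ulim {ι : Type} (l : Ultrafilter ι) {g : ι → ℂ} {S : Set ℂ} (hS : IsCompact S)
    (h : ∀ᶠ i in l, g i ∈ S) : ∃ a ∈ S, Tendsto g l (𝓝 a) :=
  hS.ultrafilter_le_nhds (l.map g) (le_principal_iff.2 h)

theorem tendsto_vec {ι : Type} {l : Filter ι} {T X : ι → ℂ} {c t x : ℂ} (hc : c ≠ 0)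
    (hT : Tendsto T l (𝓝 t)) (hX : Tendsto X l (𝓝 x)) (ht : ‖t‖ < 1) (hx : x ≠ 0) :
    Tendsto (fun i => Qv c (T i) (X i)) l (𝓝 (Qv c t x)) ∧
      Tendsto (fun i => Pv c (T i) (X i)) l (𝓝 (Pv c t x)) := by
  have h1 : ContinuousAt (fun p : ℂ × ℂ => Qv c p.1 p.2) (t, x) :=
    (cd_Q (T := fun p : ℂ × ℂ => p.1) (Y := fun p : ℂ × ℂ => p.2) (x := (t, x)) hc contDiffAt_fst
      contDiffAt_snd ht hx).continuousAt
  have h2 : ContinuousAt (fun p : ℂ × ℂ => Pv c p.1 p.2) (t, x) :=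
    (cd_P (T := fun p : ℂ × ℂ => p.1) (Y := fun p : ℂ × ℂ => p.2) (x := (t, x)) hc contDiffAt_fst
      contDiffAt_snd ht hx).continuousAt
  have h3 := h1.tendsto.comp (hT.prodMk_nhds hX)
  have h4 := h2.tendsto.comp (hT.prodMk_nhds hX)
  exact ⟨h3, h4⟩

theorem lim {ι : Type} {l : Filter ι} [l.NeBot] {ω : ι → Par} {k : ℕ} {p : Amb} {u s : ℂ}
    (hO : ∀ᶠ i in l, Om k (ω i)) (hp : Tendsto (fun i => Psi (ω i)) l (𝓝 p))
    (hu : Tendsto (fun i => ω i 1) l (𝓝 u)) (hu0 : u ≠ 0)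
    (hs : Tendsto (fun i => r ^ k * ω i 3 / ω i 2) l (𝓝 s)) (hs1 : ‖s - 1‖ < 1 / 2)
    (ht : ‖p 0‖ < 1 / 100) (hr : p 0 ≠ r) :
    ∃ a, Tendsto (fun i => ω i 2) l (𝓝 a) ∧ (a ≠ 0 → ∃ w, Om k w ∧ Psi w = p) := by
  have hc : ∀ j, Tendsto (fun i => Psi (ω i) j) l (𝓝 (p j)) := tendsto_pi_nhds.1 hp
  have h0 : Tendsto (fun i => ω i 0) l (𝓝 (p 0)) := hc 0
  obtain ⟨hQ, hP⟩ := tendsto_vec one_ne_zero h0 hu (by linarith) hu0
  have key : ∃ a, Tendsto (fun i => ω i 2) l (𝓝 a) := by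
    rcases vec_ne ht (Or.inl rfl) hu0 with h | h
    · refine ⟨_, ((hc 1).div hQ h).congr' ?_⟩
      filter_upwards [hQ.eventually_ne h] with i hi
      simp only [Pi.div_apply, Psi1]; field_simp
    · refine ⟨_, ((hc 2).div hP h).congr' ?_⟩
      filter_upwards [hP.eventually_ne h] with i hi
      simp only [Pi.div_apply, Psi2]; field_simp
  obtain ⟨a, ha⟩ := key
  refine ⟨a, ha, fun ha0 => ?_⟩
  have hr0 := r_ne
  set w : Par := ![p 0, u, a, s * a / r ^ k, p 5] with hw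
  have h3 : Tendsto (fun i => ω i 3) l (𝓝 (s * a / r ^ k)) := by
    refine ((hs.mul ha).div_const (r ^ k)).congr' ?_
    filter_upwards [hO] with i hi
    have := hi.l_ne
    field_simp
  have hω : Tendsto ω l (𝓝 w) := by
    rw [tendsto_pi_nhds]
    intro j
    fin_cases j
    exacts [h0, hu, ha, h3, hc 5]
  have e : Psi w = p := tendsto_nhds_unique
    ((cd_Psi (g := fun y => y) (x := w) contDiffAt_id (lt_trans ht (by norm_num))
      hu0).continuousAt.tendsto.comp hω) hp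
  refine ⟨w, ⟨ht, hr, hu0, ha0, ?_, ?_⟩, e⟩
  · have : r ^ k * w 3 / w 2 = s := by
      change r ^ k * (s * a / r ^ k) / a = s
      field_simp
    rw [this]; exact hs1
  · rw [e]
    exact tendsto_nhds_unique_of_eventuallyEq (h0.mul (hc 5))
      ((cd_hh p).continuousAt.tendsto.comp hp) (hO.mono fun i hi => hi.eq)

theorem ne_of_bound {ι : Type} {l : Filter ι} [l.NeBot] {f g : ι → ℂ} {a b : ℂ} {C : ℝ}
    (hf : Tendsto f l (𝓝 a)) (hg : Tendsto g l (𝓝 b)) (ha : a ≠ 0)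
    (h : ∀ᶠ i in l, g i ≠ 0 ∧ ‖f i / g i‖ ≤ C) : b ≠ 0 := by
  rintro rfl
  have h1 : ‖a‖ ≤ C * ‖(0 : ℂ)‖ := by
    refine le_of_tendsto_of_tendsto hf.norm (hg.norm.const_mul C) ?_
    filter_upwards [h] with i hi
    rw [norm_div, div_le_iff₀ (norm_pos_iff.2 hi.1)] at hi
    exact hi.2
  simp [ha] at h1

theorem sh_zero (w : Par) : sh 0 w = w := by
  refine par_ext rfl ?_ ?_ ?_ rfl <;> simp [ee]

theorem near_chart (n : ℕ) (K : Set Amb) : ∃ δ > 0, ∀ q ∈ hull (UU n) K, ‖q 0‖ < δ →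
    ∃ k ∈ Finset.range (n + 1), ∃ w, Om k w ∧ Psi w = q ∧ 1 / 2 ≤ ‖iy w‖ ∧ ‖iy w‖ ≤ 2 := by
  obtain ⟨m, hm⟩ := exists_mult fun _ => 1
  obtain ⟨C, hC, hb⟩ := bdd_one hm n K
  set c : ℝ := ∏ j ∈ Finset.range (n + 1), (1 / 2) ^ m j with hc
  have hc0 : 0 < c := Finset.prod_pos fun _ _ => by positivity
  refine ⟨c / C, by positivity, fun q hq hδ => ?_⟩
  obtain ⟨k, hk, w, h, rfl⟩ := hq.1
  by_cases h0 : w 0 = 0
  · have h1 := h.xi_eq
    rw [h0, zero_mul, zero_mul, eq_comm, sub_eq_zero] at h1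
    refine ⟨k, Finset.mem_range.2 (by omega), w, h, rfl, ?_⟩
    rw [← h1]; norm_num
  have h' := h.sh h0
  have e := Psi_sh h.t_lt_one h0 h.x_ne k
  have h0' : sh k w 0 ≠ 0 := h0
  have hδ' : ‖sh k w 0‖ < c / C := hδ
  rw [← e] at hq ⊢
  generalize sh k w = v at *
  by_contra hne
  have h1 : ∀ j ∈ Finset.range (n + 1), 1 / 2 ≤ ‖phi j 0 v‖ := by
    intro j hj
    obtain ⟨v', a1, a2, a3⟩ := h'.unsh h0' j
    have a0 : v' 0 = v 0 := by rw [← a2]; rfl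
    have a4 : iy v' = (v 0 / r) ^ j * iy v := by
      have := r_ne
      rw [← a0, ← a2, iy_sh (a0 ▸ h0') a1.x_ne, ← mul_assoc, ← mul_pow, div_mul_div_cancel₀ this,
        div_self (a0 ▸ h0'), one_pow, one_mul]
    have a5 : phi j 0 v = 1 - iy v' := by rw [phi, a4]; ring
    have a6 := abs_norm_sub_norm_le 1 (iy v')
    rw [abs_le, norm_one, ← a5] at a6
    by_contra a7
    exact hne ⟨j, hj, v', a1, a3, by linarith [a6.2], by linarith [a6.1]⟩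
  have h2 : c ≤ ‖Pi0 n m 0 v‖ := by
    rw [Pi0, norm_prod]
    refine Finset.prod_le_prod (fun _ _ => by positivity) fun j hj => ?_
    rw [norm_pow]
    exact pow_le_pow_left₀ (by norm_num) (h1 j hj) _
  have h3 := Pi0_sh (a := fun _ => 1) hm (Nat.zero_le n) h' h0' 0
  rw [sh_zero] at h3
  rw [h3, norm_mul, pow_one] at h2
  have h4 := hb 0 (Nat.zero_le n) v h' hq
  rw [lt_div_iff₀ hC] at hδ'
  nlinarith [norm_nonneg (v 0)]

theorem unit_lim {ι : Type} {l : Filter ι} {ω : ι → Par} {y : ℂ} (hy : y ≠ 0)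
    (h0 : Tendsto (fun i => ω i 0) l (𝓝 0)) (h1 : Tendsto (fun i => iy (ω i)) l (𝓝 y))
    {k j : ℕ} (hj : j ≠ k) (ε : ℂ) :
    ∃ a : ℂ, a ≠ 0 ∧ Tendsto (fun i => gg k j ε (ω i)) l (𝓝 a) := by
  have h2 : Tendsto (fun i => 1 + ε * ω i 0) l (𝓝 (1 + ε * 0)) := (h0.const_mul ε).const_add 1
  unfold gg
  split_ifs with h
  · refine ⟨_, ?_, (h0.pow _).sub ((h2.const_mul _).mul h1)⟩
    have : k - j ≠ 0 := by omega
    simp [this, hy, r_ne]
  · refine ⟨_, ?_, ((((h0.div_const r).pow _).mul h2).mul h1).const_sub 1⟩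
    have : j - k ≠ 0 := by omega
    simp [this]

theorem lam_ne {n k : ℕ} (hk : k ≤ n) {K : Set Amb} {ι : Type} {l : Filter ι} [l.NeBot]
    {ω : ι → Par} {y u : ℂ} (hO : ∀ᶠ i in l, Om k (ω i) ∧ Psi (ω i) ∈ hull (UU n) K)
    (hy : ∀ᶠ i in l, 1 / 2 ≤ ‖iy (ω i)‖) (hy0 : y ≠ 0)
    (h0 : Tendsto (fun i => ω i 0) l (𝓝 0)) (h1 : Tendsto (fun i => iy (ω i)) l (𝓝 y))
    (hu : Tendsto (fun i => ω i 1) l (𝓝 u)) (h2 : Tendsto (fun i => ω i 2) l (𝓝 0)) : False := by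
  obtain ⟨m, hm⟩ := exists_mult ee
  have key : ∀ ε : ℂ, Tendsto (fun i => gg k k ε (ω i) ^ m k) l (𝓝 0) := by
    intro ε
    obtain ⟨C, hC, hb⟩ := bdd_ee hm n ε K
    have a1 : Tendsto (fun i => GG n m ε k (ω i)) l (𝓝 0) := by
      have a2 := ((h2.mul (hu.pow (2 * k))).norm.const_mul C)
      rw [zero_mul, norm_zero, mul_zero] at a2
      refine squeeze_zero_norm' ?_ a2
      filter_upwards [hO] with i hi
      have := hb k hk _ hi.1 hi.2
      rwa [norm_div, div_le_iff₀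
        (norm_pos_iff.2 (mul_ne_zero hi.1.l_ne (pow_ne_zero _ hi.1.x_ne)))] at this
    have a3 : ∀ j : ℕ, ∃ a : ℂ, a ≠ 0 ∧ (j ≠ k → Tendsto (fun i => gg k j ε (ω i)) l (𝓝 a)) := by
      intro j
      by_cases hj : j = k
      · exact ⟨1, one_ne_zero, fun h => absurd hj h⟩
      · obtain ⟨a, b, c⟩ := unit_lim hy0 h0 h1 hj ε
        exact ⟨a, b, fun _ => c⟩
    choose a ha0 ha using a3
    have a4 : Tendsto (fun i => ∏ j ∈ (Finset.range (n + 1)).erase k, gg k j ε (ω i) ^ m j) l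
        (𝓝 (∏ j ∈ (Finset.range (n + 1)).erase k, a j ^ m j)) :=
      tendsto_finsetProd _ fun j hj => (ha j (Finset.ne_of_mem_erase hj)).pow _
    have a5 : ∏ j ∈ (Finset.range (n + 1)).erase k, a j ^ m j ≠ 0 :=
      Finset.prod_ne_zero_iff.2 fun j _ => pow_ne_zero _ (ha0 j)
    have a6 := a1.div a4 a5
    rw [zero_div] at a6
    refine a6.congr' ?_
    filter_upwards [a4.eventually_ne a5] with i hi
    simp only [Pi.div_apply]
    rw [GG, ← Finset.mul_prod_erase _ _ (Finset.mem_range.2 (Nat.lt_succ_of_le hk)),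
      mul_div_cancel_right₀ _ hi]
  have b : ∀ ε : ℂ, ∀ᶠ i in l, ‖gg k k ε (ω i)‖ < 1 / 4 := fun ε => by
    have := (key ε).norm
    rw [norm_zero] at this
    filter_upwards [this.eventually (gt_mem_nhds (show (0 : ℝ) < (1 / 4) ^ m k by positivity))]
      with i hi
    rw [norm_pow] at hi
    exact lt_of_pow_lt_pow_left₀ _ (by norm_num) hi
  obtain ⟨i, b0, b1, b2⟩ := ((b 0).and ((b 1).and hy)).exists
  have : iy (ω i) = gg k k 0 (ω i) - gg k k 1 (ω i) := by simp [gg]; ring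
  have h3 := norm_sub_le (gg k k 0 (ω i)) (gg k k 1 (ω i))
  rw [← this] at h3
  linarith

theorem UU_stein (n : ℕ) : IsStein (UU n) := by
  refine isStein_of_limit fun K hK hc l p hl hp => ?_
  have hp0 : Tendsto (fun q : Amb => q 0) l (𝓝 (p 0)) :=
    (cd_coord 0 p).continuousAt.tendsto.mono_left hp
  have ht : ‖p 0‖ < 1 / 100 := by
    obtain ⟨C, hC, h1⟩ := hull_bound_lt hK hc (hol_coord 0) (a := 1 / 100) (by norm_num)
      fun y hy => (UU_sub n hy).1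
    exact (le_of_tendsto hp0.norm (mem_of_superset hl h1)).trans_lt hC
  have hne : ∀ q ∈ UU n, q 0 - r ≠ 0 := by
    rintro _ ⟨k, -, w, h, rfl⟩
    exact sub_ne_zero.2 h.t_ne
  have hr : p 0 ≠ r := by
    obtain ⟨C, -, h1⟩ := hull_bound (K := K) (Y := UU n) (f := fun q => 1 / (q 0 - r))
      (hol_of_cd fun q hq => ContDiffAt.div contDiffAt_const (by fun_prop) (hne q hq))
    exact sub_ne_zero.1 (ne_of_bound tendsto_const_nhds (hp0.sub_const r) one_ne_zero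
      (mem_of_superset hl fun q hq => ⟨hne q hq.1, h1 q hq⟩))
  obtain ⟨Cs, hCs, hs⟩ := bdd_s n hK hc
  have hsl : ∀ k ≤ n, ∀ ω : Amb → Par, (∀ᶠ q in l, Om k (ω q) ∧ Psi (ω q) ∈ hull (UU n) K) →
      ∃ s, ‖s - 1‖ < 1 / 2 ∧ Tendsto (fun q => r ^ k * ω q 3 / ω q 2) l (𝓝 s) := by
    intro k hk ω h
    obtain ⟨s, h1, h2⟩ := ulim l (g := fun q => r ^ k * ω q 3 / ω q 2)
      (isCompact_closedBall (1 : ℂ) Cs)
      (h.mono fun q hq => mem_closedBall_iff_norm.2 (hs k hk _ hq.1 hq.2))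
    exact ⟨s, (mem_closedBall_iff_norm.1 h1).trans_lt hCs, h2⟩
  by_cases h0 : p 0 = 0
  · obtain ⟨δ, hδ, h1⟩ := near_chart n K
    have h2 : ∀ᶠ q in l, ∃ k ∈ (Finset.range (n + 1) : Set ℕ), ∃ w, (Om k w ∧
        Psi w ∈ hull (UU n) K) ∧ Psi w = q ∧ 1 / 2 ≤ ‖iy w‖ ∧ ‖iy w‖ ≤ 2 := by
      filter_upwards [hl, hp0.norm.eventually (gt_mem_nhds (show ‖p 0‖ < δ by simpa [h0]))]
        with q a b
      obtain ⟨k, hk, w, c, d, e⟩ := h1 q a b
      exact ⟨k, hk, w, ⟨c, d ▸ a⟩, d, e⟩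
    obtain ⟨k, hk, h3⟩ := (Ultrafilter.eventually_exists_mem_iff (Finset.finite_toSet _)).1 h2
    have hk' : k ≤ n := by simpa [Nat.lt_succ_iff] using hk
    obtain ⟨ω, hω⟩ := h3.choice
    obtain ⟨s, hs1, hs2⟩ := hsl k hk' ω (hω.mono fun q h => h.1)
    have hs0 : s ≠ 0 := by rintro rfl; norm_num at hs1
    obtain ⟨y, -, hy⟩ := ulim l (g := fun q => iy (ω q)) (isCompact_closedBall (0 : ℂ) 2)
      (hω.mono fun q h => mem_closedBall_zero_iff.2 h.2.2.2)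
    have hy0 : y ≠ 0 := by
      have := ge_of_tendsto hy.norm (hω.mono fun q h => h.2.2.1)
      exact norm_pos_iff.1 (by linarith)
    have hr0 := r_ne
    have hu : Tendsto (fun q => ω q 1) l (𝓝 (s / (r ^ k * y))) := by
      refine (hs2.div (hy.const_mul (r ^ k)) (by positivity)).congr' ?_
      filter_upwards [hω] with q h
      have := h.1.1.l_ne
      have := h.1.1.m_ne
      have := h.1.1.x_ne
      simp only [Pi.div_apply, iy]
      field_simp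
    have hP : Tendsto (fun q => Psi (ω q)) l (𝓝 p) :=
      Tendsto.congr' (hω.mono fun q h => h.2.1.symm) hp
    obtain ⟨a, ha, h4⟩ := lim (hω.mono fun q h => h.1.1) hP hu (by positivity) hs2 hs1 ht hr
    obtain ⟨w, h5, h6⟩ := h4 (by
      rintro rfl
      exact lam_ne hk' (hω.mono fun q h => h.1) (hω.mono fun q h => h.2.2.1) hy0
        (h0 ▸ tendsto_pi_nhds.1 hP 0) hy hu ha)
    exact ⟨k, hk', w, h5, h6⟩
  · have h2 : ∀ᶠ q in l, ∃ w, (Om 0 w ∧ Psi w ∈ hull (UU n) K) ∧ Psi w = q := by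
      filter_upwards [hl, hp0.eventually_ne h0] with q a b
      obtain ⟨k, -, w, c, rfl⟩ := a.1
      have e := Psi_sh c.t_lt_one b c.x_ne k
      exact ⟨sh k w, ⟨c.sh b, e ▸ a⟩, e⟩
    obtain ⟨ω, hω⟩ := h2.choice
    obtain ⟨s, hs1, hs2⟩ := hsl 0 (Nat.zero_le n) ω (hω.mono fun q h => h.1)
    have hP : Tendsto (fun q => Psi (ω q)) l (𝓝 p) :=
      Tendsto.congr' (hω.mono fun q h => h.2.symm) hp
    have hT : Tendsto (fun q => ω q 0) l (𝓝 (p 0)) := tendsto_pi_nhds.1 hP 0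
    obtain ⟨C1, -, b1⟩ := bdd_x n K
    obtain ⟨C2, -, b2⟩ := bdd_ix n K
    obtain ⟨C3, -, b3⟩ := bdd_il n K
    obtain ⟨u, -, hu⟩ := ulim l (g := fun q => ω q 1) (isCompact_closedBall (0 : ℂ) C1)
      (hω.mono fun q h => mem_closedBall_zero_iff.2 (by
        simpa using b1 0 (Nat.zero_le n) _ h.1.1 h.1.2))
    have hu0 : u ≠ 0 := ne_of_bound (hT.pow (n - 0)) hu (pow_ne_zero _ h0)
      (hω.mono fun q h => ⟨h.1.1.x_ne, b2 0 (Nat.zero_le n) _ h.1.1 h.1.2⟩)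
    obtain ⟨a, ha, h4⟩ := lim (hω.mono fun q h => h.1.1) hP hu hu0 hs2 hs1 ht hr
    obtain ⟨w, h5, h6⟩ := h4 (ne_of_bound (C := C3) (hT.pow (ee n - ee 0)) ha (pow_ne_zero _ h0)
      (hω.mono fun q h => ⟨h.1.1.l_ne, by
        have := b3 0 (Nat.zero_le n) _ h.1.1 h.1.2
        simpa only [mul_zero, pow_zero, mul_one] using this⟩))
    exact ⟨0, Nat.zero_le n, w, h5, h6⟩

end Pool.Agent.P.MP_0cf9ad_an
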