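import Pool.Agent.P.MP_0cf9ad_an.Series

/-!
Theta series: functional equations and the addition formula.
-/

set_option autoImplicit false

open Metric Filter Topology Set

namespace Pool.Agent.P.MP_0cf9ad_an

def tri (n : ℤ) : ℕ := (n * (n - 1) / 2).toNat
def eP (n : ℤ) : ℕ := (n * (n - 1)).toNat
def eQ (n : ℤ) : ℕ := (n * n).toNat

theorem mul_pred_nonneg (n : ℤ) : 0 ≤ n * (n - 1) := by
  rcases le_or_gt n 0 with h | h
  · exact mul_nonneg_of_nonpos_of_nonpos h (by omega)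
  · exact mul_nonneg h.le (by omega)

theorem tri_cast (n : ℤ) : 2 * (tri n : ℤ) = n * (n - 1) := by
  have h1 := mul_pred_nonneg n
  have h2 : Even (n * (n - 1)) := Int.even_mul_pred_self n
  obtain ⟨k, hk⟩ := h2
  unfold tri
  omega

theorem eP_cast (n : ℤ) : (eP n : ℤ) = n * (n - 1) := Int.toNat_of_nonneg (mul_pred_nonneg n)
theorem eQ_cast (n : ℤ) : (eQ n : ℤ) = n * n := Int.toNat_of_nonneg (mul_self_nonneg n)

theorem grow_tri : Grow tri := fun n => by
  have := tri_cast n; have := le_abs_self n; nlinarith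
theorem grow_eP' : Grow fun n => eP n - 1 := fun n => by
  have h1 := eP_cast n; have := le_abs_self n; have h3 := mul_pred_nonneg n
  have : (eP n : ℤ) ≤ ((eP n - 1 : ℕ) : ℤ) + 1 := by omega
  nlinarith
theorem grow_eQ' : Grow fun n => eQ n - 1 := fun n => by
  have h1 := eQ_cast n; have := abs_nonneg n; have h3 := mul_self_nonneg n
  have : (eQ n : ℤ) ≤ ((eQ n - 1 : ℕ) : ℤ) + 1 := by omega
  nlinarith
theorem grow_eP : Grow eP := fun n => by
  have h1 := eP_cast n; have := le_abs_self n; have h3 := mul_pred_nonneg n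
  nlinarith
theorem grow_eQ : Grow eQ := fun n => by
  have h1 := eQ_cast n; have := abs_nonneg n; have h3 := mul_self_nonneg n
  nlinarith

theorem hasSum_of_eq {ι : Type} {f g : ι → ℂ} {a : ℂ} (h : HasSum f a) (hfg : ∀ n, g n = f n) :
    HasSum g a := by
  rw [show g = f from funext hfg]; exact h

theorem one_le (n : ℤ) : ‖(fun _ : ℤ => (1 : ℂ)) n‖ ≤ 1 := by simp

noncomputable def TT (t w : ℂ) : ℂ := S (fun _ => 1) tri t w
noncomputable def PP (t y : ℂ) : ℂ := S (fun _ => 1) eP t y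
noncomputable def QQ (t y : ℂ) : ℂ := S (fun _ => 1) eQ t y
noncomputable def PR (t y : ℂ) : ℂ :=
  S (fun n => if n = 0 ∨ n = 1 then 0 else 1) (fun n => eP n - 1) t y
noncomputable def QR (t y : ℂ) : ℂ := S (fun n => if n = 0 then 0 else 1) (fun n => eQ n - 1) t y

theorem hasSum_TT {t : ℂ} (ht : ‖t‖ < 1) (w : ℂ) :
    HasSum (fun n : ℤ => t ^ tri n * w ^ n) (TT t w) := by
  simpa [TT] using hasSum_S one_le grow_tri ht w
theorem hasSum_PP {t : ℂ} (ht : ‖t‖ < 1) (w : ℂ) :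
    HasSum (fun n : ℤ => t ^ eP n * w ^ n) (PP t w) := by
  simpa [PP] using hasSum_S one_le grow_eP ht w
theorem hasSum_QQ {t : ℂ} (ht : ‖t‖ < 1) (w : ℂ) :
    HasSum (fun n : ℤ => t ^ eQ n * w ^ n) (QQ t w) := by
  simpa [QQ] using hasSum_S one_le grow_eQ ht w

theorem aP_le (n : ℤ) : ‖(fun n : ℤ => if n = 0 ∨ n = 1 then (0 : ℂ) else 1) n‖ ≤ 1 := by
  dsimp only; split_ifs <;> simp
theorem aQ_le (n : ℤ) : ‖(fun n : ℤ => if n = 0 then (0 : ℂ) else 1) n‖ ≤ 1 := by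
  dsimp only; split_ifs <;> simp

theorem PP_eq {t : ℂ} (ht : ‖t‖ < 1) (y : ℂ) : PP t y = 1 + y + t * PR t y := by
  refine (hasSum_PP ht y).unique ?_
  have h := ((hasSum_ite_eq (0 : ℤ) (1 : ℂ)).add (hasSum_ite_eq (1 : ℤ) y)).add
    ((hasSum_S aP_le grow_eP' ht y).mul_left t)
  refine hasSum_of_eq h fun n => ?_
  by_cases h0 : n = 0
  · subst h0; simp [eP]
  by_cases h1 : n = 1
  · subst h1; simp [eP]
  have h2 : eP n = (eP n - 1) + 1 := by
    have h3 := eP_cast n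
    have : 0 < n * (n - 1) := by
      rcases le_or_gt n 0 with h | h
      · exact mul_pos_of_neg_of_neg (by omega) (by omega)
      · exact mul_pos h (by omega)
    omega
  simp only [h0, h1, if_false, or_self]
  conv_lhs => rw [h2]
  ring

theorem QQ_eq {t : ℂ} (ht : ‖t‖ < 1) (y : ℂ) : QQ t y = 1 + t * QR t y := by
  refine (hasSum_QQ ht y).unique ?_
  have h := (hasSum_ite_eq (0 : ℤ) (1 : ℂ)).add ((hasSum_S aQ_le grow_eQ' ht y).mul_left t)
  refine hasSum_of_eq h fun n => ?_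
  by_cases h0 : n = 0
  · subst h0; simp [eQ]
  have h2 : eQ n = (eQ n - 1) + 1 := by
    have h3 := eQ_cast n
    have : 0 < n * n := mul_self_pos.2 h0
    omega
  simp only [h0, if_false]
  conv_lhs => rw [h2]
  ring

theorem pow_eq_of_cast {t : ℂ} (ht : t ≠ 0) {a b : ℕ} {n : ℤ} (h : (a : ℤ) + n = b) :
    t ^ a * t ^ n = t ^ b := by
  rw [← zpow_natCast, ← zpow_natCast, ← zpow_add₀ ht, h]

theorem TT_shift {t w : ℂ} (ht : ‖t‖ < 1) (h0 : t ≠ 0) (hw : w ≠ 0) :
    TT t (t * w) * w = TT t w := by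
  refine ((hasSum_TT ht (t * w)).mul_right w).unique ?_
  have h := (Equiv.addRight (1 : ℤ)).hasSum_iff.2 (hasSum_TT ht w)
  refine hasSum_of_eq h fun n => ?_
  simp only [Function.comp, Equiv.coe_addRight]
  have : (tri n : ℤ) + n = tri (n + 1) := by
    have h1 := tri_cast n; have h2 := tri_cast (n + 1); nlinarith
  rw [← pow_eq_of_cast h0 this, mul_zpow, zpow_add_one₀ hw]; ring

theorem TT_inv {t w : ℂ} (ht : ‖t‖ < 1) (hw : w ≠ 0) : TT t w⁻¹ * w = TT t w := by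
  refine ((hasSum_TT ht w⁻¹).mul_right w).unique ?_
  have h := (Equiv.subLeft (1 : ℤ)).hasSum_iff.2 (hasSum_TT ht w)
  refine hasSum_of_eq h fun n => ?_
  simp only [Function.comp, Equiv.subLeft_apply]
  have : tri n = tri (1 - n) := by
    have h1 := tri_cast n; have h2 := tri_cast (1 - n)
    have : (tri n : ℤ) = tri (1 - n) := by nlinarith
    exact_mod_cast this
  rw [← this, zpow_sub₀ hw, inv_zpow, zpow_one]
  field_simp

theorem PP_shift {t y : ℂ} (ht : ‖t‖ < 1) (h0 : t ≠ 0) (hy : y ≠ 0) :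
    PP t (t ^ 2 * y) * y = PP t y := by
  refine ((hasSum_PP ht (t ^ 2 * y)).mul_right y).unique ?_
  have h := (Equiv.addRight (1 : ℤ)).hasSum_iff.2 (hasSum_PP ht y)
  refine hasSum_of_eq h fun n => ?_
  simp only [Function.comp, Equiv.coe_addRight]
  have : (eP n : ℤ) + (n + n) = eP (n + 1) := by
    have h1 := eP_cast n; have h2 := eP_cast (n + 1); nlinarith
  rw [← pow_eq_of_cast h0 this, mul_zpow, zpow_add_one₀ hy, sq, mul_zpow, zpow_add₀ h0]; ring

theorem QQ_shift {t y : ℂ} (ht : ‖t‖ < 1) (h0 : t ≠ 0) (hy : y ≠ 0) :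
    QQ t (t ^ 2 * y) * (t * y) = QQ t y := by
  refine ((hasSum_QQ ht (t ^ 2 * y)).mul_right (t * y)).unique ?_
  have h := (Equiv.addRight (1 : ℤ)).hasSum_iff.2 (hasSum_QQ ht y)
  refine hasSum_of_eq h fun n => ?_
  simp only [Function.comp, Equiv.coe_addRight]
  have : (eQ n : ℤ) + (n + n + 1) = eQ (n + 1) := by
    have h1 := eQ_cast n; have h2 := eQ_cast (n + 1); nlinarith
  rw [← pow_eq_of_cast h0 this, mul_zpow, zpow_add_one₀ hy, sq, mul_zpow, zpow_add_one₀ h0,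
    zpow_add₀ h0]; ring

/-- splitting of the lattice by parity -/
def split : (ℤ × ℤ) ⊕ (ℤ × ℤ) → ℤ × ℤ
  | .inl p => (p.1 - p.2, p.1 + p.2)
  | .inr p => (p.1 - p.2 + 1, p.1 + p.2)

theorem split_bij : Function.Bijective split := by
  constructor
  · rintro (⟨a, b⟩ | ⟨a, b⟩) (⟨c, d⟩ | ⟨c, d⟩) h <;>
      simp only [split, Prod.mk.injEq, Sum.inl.injEq, Sum.inr.injEq, reduceCtorEq] at h ⊢ <;> omega
  · rintro ⟨m, n⟩
    rcases Int.even_or_odd' (m + n) with ⟨k, h | h⟩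
    · exact ⟨.inl (k, n - k), by simp only [split, Prod.mk.injEq]; omega⟩
    · exact ⟨.inr (k, n - k), by simp only [split, Prod.mk.injEq]; omega⟩

theorem hasSum_prod {e e' : ℤ → ℕ} (he : Grow e) (he' : Grow e') {t : ℂ} (ht : ‖t‖ < 1) (y y' : ℂ) :
    HasSum (fun p : ℤ × ℤ => (t ^ e p.1 * y ^ p.1) * (t ^ e' p.2 * y' ^ p.2))
      (S (fun _ => 1) e t y * S (fun _ => 1) e' t y') := by
  have h1 := summable_norm_term one_le he ht y
  have h2 := summable_norm_term one_le he' ht y'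
  have h3 := (summable_mul_of_summable_norm h1 h2).hasSum
  rw [← tsum_mul_tsum_of_summable_norm h1 h2] at h3
  simpa [S] using h3

theorem TT_mul {t α β : ℂ} (ht : ‖t‖ < 1) (hα : α ≠ 0) (hβ : β ≠ 0) :
    TT t α * TT t β = PP t (α * β) * QQ t (β / α) + α * (QQ t (α * β) * PP t (β / α)) := by
  have h := (Equiv.ofBijective split split_bij).hasSum_iff.2 (hasSum_prod grow_tri grow_tri ht α β)
  refine h.unique (HasSum.sum ?_ ?_)
  · refine hasSum_of_eq (hasSum_prod grow_eP grow_eQ ht (α * β) (β / α)) fun ⟨a, b⟩ => ?_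
    simp only [Function.comp, Equiv.ofBijective_apply, split]
    have h1 : tri (a - b) + tri (a + b) = eP a + eQ b := by
      have h1 := tri_cast (a - b); have h2 := tri_cast (a + b)
      have h3 := eP_cast a; have h4 := eQ_cast b
      have : (tri (a - b) : ℤ) + tri (a + b) = eP a + eQ b := by nlinarith
      exact_mod_cast this
    have h2 : t ^ tri (a - b) * t ^ tri (a + b) = t ^ eP a * t ^ eQ b := by
      rw [← pow_add, ← pow_add, h1]
    rw [zpow_sub₀ hα, zpow_add₀ hβ, mul_zpow, div_zpow]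
    linear_combination (α ^ a / α ^ b * (β ^ a * β ^ b)) * h2
  · refine hasSum_of_eq ((hasSum_prod grow_eQ grow_eP ht (α * β) (β / α)).mul_left α)
      fun ⟨a, b⟩ => ?_
    simp only [Function.comp, Equiv.ofBijective_apply, split]
    have h1 : tri (a - b + 1) + tri (a + b) = eQ a + eP b := by
      have h1 := tri_cast (a - b + 1); have h2 := tri_cast (a + b)
      have h3 := eP_cast b; have h4 := eQ_cast a
      have : (tri (a - b + 1) : ℤ) + tri (a + b) = eQ a + eP b := by nlinarith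
      exact_mod_cast this
    have h2 : t ^ tri (a - b + 1) * t ^ tri (a + b) = t ^ eQ a * t ^ eP b := by
      rw [← pow_add, ← pow_add, h1]
    rw [zpow_add_one₀ hα, zpow_sub₀ hα, zpow_add₀ hβ, mul_zpow, div_zpow]
    linear_combination (α ^ a / α ^ b * α * (β ^ a * β ^ b)) * h2

/-- the odd theta function of degree one -/
noncomputable def th (t z : ℂ) : ℂ := TT t (-z)
/-- the even theta function of degree two -/
noncomputable def Pv (c t x : ℂ) : ℂ := PP t (c * x ^ 2)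
/-- the odd theta function of degree two -/
noncomputable def Qv (c t x : ℂ) : ℂ := x * QQ t (c * x ^ 2)

theorem th_shift {t z : ℂ} (ht : ‖t‖ < 1) (h0 : t ≠ 0) (hz : z ≠ 0) :
    th t (t * z) * (-z) = th t z := by
  have := TT_shift ht h0 (neg_ne_zero.2 hz)
  simpa [th] using this

theorem th_inv {t z : ℂ} (ht : ‖t‖ < 1) (hz : z ≠ 0) : th t z⁻¹ * (-z) = th t z := by
  have := TT_inv ht (neg_ne_zero.2 hz)
  rw [inv_neg] at this
  exact this

theorem P_shift {c t x : ℂ} (ht : ‖t‖ < 1) (h0 : t ≠ 0) (hc : c ≠ 0) (hx : x ≠ 0) :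
    Pv c t (t * x) * (c * x ^ 2) = Pv c t x := by
  have := PP_shift ht h0 (y := c * x ^ 2) (by positivity)
  rw [Pv, Pv, ← this]; congr 2; ring

theorem Q_shift {c t x : ℂ} (ht : ‖t‖ < 1) (h0 : t ≠ 0) (hc : c ≠ 0) (hx : x ≠ 0) :
    Qv c t (t * x) * (c * x ^ 2) = Qv c t x := by
  have := QQ_shift ht h0 (y := c * x ^ 2) (by positivity)
  have h : c * (t * x) ^ 2 = t ^ 2 * (c * x ^ 2) := by ring
  rw [Qv, Qv, ← this, h]; ring

/-- the addition formula -/
theorem W_eq {c t x y : ℂ} (ht : ‖t‖ < 1) (hc : c ≠ 0) (hx : x ≠ 0) (hy : y ≠ 0) :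
    Pv c t x * Qv c t y - Qv c t x * Pv c t y = y * (th t (x / y) * th t (c * x * y)) := by
  have h := TT_mul ht (α := -(x / y)) (β := -(c * x * y)) (by simp [hx, hy]) (by simp [hx, hy, hc])
  have h1 : -(x / y) * -(c * x * y) = c * x ^ 2 := by field_simp
  have h2 : -(c * x * y) / -(x / y) = c * y ^ 2 := by field_simp
  rw [h1, h2] at h
  rw [th, th, h, Pv, Pv, Qv, Qv]
  field_simp
  ring

section smooth
variable {E : Type} [NormedAddCommGroup E] [NormedSpace ℂ E] {T Y : E → ℂ} {x : E}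

theorem cd_th (hT : ContDiffAt ℂ 1 T x) (hY : ContDiffAt ℂ 1 Y x) (ht : ‖T x‖ < 1)
    (hy : Y x ≠ 0) : ContDiffAt ℂ 1 (fun p => th (T p) (Y p)) x :=
  cd_S' one_le grow_tri hT hY.neg ht (neg_ne_zero.2 hy)

theorem cd_P {c : ℂ} (hc : c ≠ 0) (hT : ContDiffAt ℂ 1 T x) (hY : ContDiffAt ℂ 1 Y x)
    (ht : ‖T x‖ < 1) (hy : Y x ≠ 0) : ContDiffAt ℂ 1 (fun p => Pv c (T p) (Y p)) x :=
  cd_S' one_le grow_eP hT (Y := fun p => c * Y p ^ 2) (by fun_prop) ht (by positivity)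

theorem cd_Q {c : ℂ} (hc : c ≠ 0) (hT : ContDiffAt ℂ 1 T x) (hY : ContDiffAt ℂ 1 Y x)
    (ht : ‖T x‖ < 1) (hy : Y x ≠ 0) : ContDiffAt ℂ 1 (fun p => Qv c (T p) (Y p)) x :=
  hY.mul (cd_S' one_le grow_eQ hT (Y := fun p => c * Y p ^ 2) (by fun_prop) ht (by positivity))

theorem cd_PR (hT : ContDiffAt ℂ 1 T x) (hY : ContDiffAt ℂ 1 Y x) (ht : ‖T x‖ < 1)
    (hy : Y x ≠ 0) : ContDiffAt ℂ 1 (fun p => PR (T p) (Y p)) x :=
  cd_S' aP_le grow_eP' hT hY ht hy

theorem cd_QR (hT : ContDiffAt ℂ 1 T x) (hY : ContDiffAt ℂ 1 Y x) (ht : ‖T x‖ < 1)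
    (hy : Y x ≠ 0) : ContDiffAt ℂ 1 (fun p => QR (T p) (Y p)) x :=
  cd_S' aQ_le grow_eQ' hT hY ht hy

end smooth

end Pool.Agent.P.MP_0cf9ad_an
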