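import Pool.Agent.P.MP_0cf9ad_an.Theta

/-!
The zeros of the theta function for a small nome.
-/

set_option autoImplicit false

open Metric Filter Topology Set

namespace Pool.Agent.P.MP_0cf9ad_an

theorem diff_le {z w : ℂ} (h : z * w = 1) {R : ℝ} (hR : 1 ≤ R) (hz : ‖z‖ ≤ R) (hw : ‖w‖ ≤ R)
    (n : ℕ) : ‖w ^ n - z ^ (n + 1)‖ ≤ (2 * n + 1) * R ^ n * ‖1 - z‖ := by
  induction n with
  | zero => simp
  | succ n ih =>
    have h1 : w ^ (n + 1) - z ^ (n + 1 + 1) =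
        (w ^ n - z ^ (n + 1)) + w ^ (n + 1) * (1 - z) + z ^ (n + 1) * (1 - z) := by
      linear_combination (w ^ n) * h
    have h2 : ‖w ^ (n + 1) * (1 - z)‖ ≤ R ^ (n + 1) * ‖1 - z‖ := by
      rw [norm_mul, norm_pow]; gcongr
    have h3 : ‖z ^ (n + 1) * (1 - z)‖ ≤ R ^ (n + 1) * ‖1 - z‖ := by
      rw [norm_mul, norm_pow]; gcongr
    have h4 : (2 * n + 1) * R ^ n * ‖1 - z‖ ≤ (2 * n + 1) * R ^ (n + 1) * ‖1 - z‖ := by
      gcongr; omega
    rw [h1]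
    refine (norm_add₃_le).trans ?_
    push_cast
    linarith

theorem coef_le {ρ : ℝ} (h0 : 0 < ρ) (h1 : ρ ≤ 1 / 10) (n : ℕ) :
    (ρ ^ 2) ^ tri (n + 1) * ((2 * n + 1) * ρ⁻¹ ^ n) ≤ (3 / 10) ^ n := by
  have h2 : 2 * tri (n + 1) = n * n + n := by
    have := tri_cast (n + 1)
    have h : (2 * tri (n + 1) : ℤ) = n * n + n := by linarith
    exact_mod_cast h
  have h3 : (2 * n + 1 : ℝ) ≤ 3 ^ n := by
    have := one_add_mul_le_pow (a := (2 : ℝ)) (by norm_num) n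
    norm_num at this; linarith
  have h4 : ρ ^ (n * n) ≤ (1 / 10) ^ n :=
    (pow_le_pow_of_le_one h0.le (by linarith) (Nat.le_mul_self n)).trans (by gcongr)
  rw [← pow_mul, h2, pow_add]
  calc ρ ^ (n * n) * ρ ^ n * ((2 * n + 1) * ρ⁻¹ ^ n) = ρ ^ (n * n) * (2 * n + 1) := by
        rw [inv_pow]; field_simp
    _ ≤ (1 / 10) ^ n * 3 ^ n := by gcongr
    _ = (3 / 10) ^ n := by rw [← mul_pow]; norm_num

theorem th_bound {t z : ℂ} {ρ : ℝ} (h0 : 0 < ρ) (h1 : ρ ≤ 1 / 10) (ht : ‖t‖ ≤ ρ ^ 2)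
    (hz : ‖z‖ ≤ ρ⁻¹) (hz' : ρ ≤ ‖z‖) : ‖th t z - (1 - z)‖ ≤ ‖1 - z‖ / 2 := by
  have ht1 : ‖t‖ < 1 := by nlinarith
  have hz0 : z ≠ 0 := norm_pos_iff.1 (by linarith)
  have hR : 1 ≤ ρ⁻¹ := by rw [one_le_inv₀ h0]; linarith
  have hw : ‖z⁻¹‖ ≤ ρ⁻¹ := by rw [norm_inv]; exact inv_anti₀ h0 hz'
  have h2 := ((Equiv.neg ℤ).hasSum_iff.2 (hasSum_TT ht1 (-z))).nat_add_neg_add_one
  have h3 : HasSum (fun n : ℕ => t ^ tri (n + 1) * ((-1) ^ n * (z⁻¹ ^ n - z ^ (n + 1))))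
      (th t z) := by
    refine hasSum_of_eq h2 fun n => ?_
    simp only [Function.comp, Equiv.neg_apply, neg_neg]
    have : tri (-n) = tri (n + 1) := by
      have h1 := tri_cast (-n); have h2 := tri_cast (n + 1)
      have : (tri (-n) : ℤ) = tri (n + 1) := by nlinarith
      exact_mod_cast this
    rw [this, zpow_neg, zpow_add_one₀ (neg_ne_zero.2 hz0), zpow_natCast, ← inv_pow, inv_neg,
      neg_pow z⁻¹, neg_pow z]
    ring
  have h4 := (hasSum_nat_add_iff' 1).2 h3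
  simp only [Finset.range_one, Finset.sum_singleton] at h4
  have h5 : tri (((0 : ℕ) : ℤ) + 1) = 0 := by simp [tri]
  rw [h5] at h4
  simp only [pow_zero, one_mul, zero_add, pow_one] at h4
  have h6 : HasSum (fun n : ℕ => (3 / 10 : ℝ) ^ n * (3 / 10 * ‖1 - z‖))
      ((1 - 3 / 10)⁻¹ * (3 / 10 * ‖1 - z‖)) :=
    (hasSum_geometric_of_lt_one (by norm_num) (by norm_num)).mul_right _
  have h7 := HasSum.norm_le_of_bounded h4 h6 fun n => by
    have h8 := diff_le (mul_inv_cancel₀ hz0) hR hz hw (n + 1)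
    have h9 := coef_le h0 h1 (n + 1)
    rw [norm_mul, norm_mul, norm_pow, norm_pow, norm_neg, norm_one, one_pow, one_mul]
    calc _ ≤ (ρ ^ 2) ^ tri (((n + 1 : ℕ) : ℤ) + 1) *
          ((2 * (n + 1 : ℕ) + 1) * ρ⁻¹ ^ (n + 1) * ‖1 - z‖) := by gcongr
      _ = (ρ ^ 2) ^ tri (((n + 1 : ℕ) : ℤ) + 1) *
          ((2 * (n + 1 : ℕ) + 1) * ρ⁻¹ ^ (n + 1)) * ‖1 - z‖ := by ring
      _ ≤ (3 / 10) ^ (n + 1) * ‖1 - z‖ := by gcongr
      _ = _ := by ring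
  have := norm_nonneg (1 - z)
  linarith

theorem th_lower {t z : ℂ} {ρ : ℝ} (h0 : 0 < ρ) (h1 : ρ ≤ 1 / 10) (ht : ‖t‖ ≤ ρ ^ 2)
    (hz : ‖z‖ ≤ ρ⁻¹) (hz' : ρ ≤ ‖z‖) : ‖1 - z‖ / 2 ≤ ‖th t z‖ := by
  have h := th_bound h0 h1 ht hz hz'
  have h2 := abs_norm_sub_norm_le (th t z) (1 - z)
  rw [abs_le] at h2
  linarith [h2.1]

theorem th_one {t : ℂ} (ht : ‖t‖ < 1 / 100) : th t 1 = 0 := by
  have h := th_bound (t := t) (z := 1) (ρ := 1 / 10) (by norm_num) le_rfl (by linarith)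
    (by norm_num) (by norm_num)
  simpa using h

theorem th_zpow {t z : ℂ} (ht : ‖t‖ < 1) (h0 : t ≠ 0) (hz : z ≠ 0) (j : ℤ) :
    th t (t ^ j * z) = 0 ↔ th t z = 0 := by
  have key : ∀ w : ℂ, w ≠ 0 → (th t (t * w) = 0 ↔ th t w = 0) := fun w hw => by
    rw [← th_shift ht h0 hw]; simp [hw]
  induction j using Int.induction_on with
  | zero => simp
  | succ i ih =>
    refine Iff.trans ?_ ih
    rw [← key (t ^ (i : ℤ) * z) (mul_ne_zero (zpow_ne_zero _ h0) hz), zpow_add_one₀ h0,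
      show t ^ (i : ℤ) * t * z = t * (t ^ (i : ℤ) * z) by ring]
  | pred i ih =>
    refine Iff.trans ?_ ih
    rw [← key (t ^ (-(i : ℤ) - 1) * z) (mul_ne_zero (zpow_ne_zero _ h0) hz), zpow_sub_one₀ h0,
      show t * (t ^ (-(i : ℤ)) * t⁻¹ * z) = t ^ (-(i : ℤ)) * z by field_simp]

theorem th_zero {t z : ℂ} (ht : ‖t‖ < 1 / 100) (hz : z ≠ 0) (h : th t z = 0) :
    ∃ j : ℤ, z = t ^ j := by
  have hz' : 0 < ‖z‖ := norm_pos_iff.2 hz
  by_cases h0 : t = 0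
  · refine ⟨0, ?_⟩
    have h1 := th_lower (t := t) (z := z) (ρ := min (1 / 10) (min ‖z‖ ‖z‖⁻¹)) (by positivity)
      (min_le_left _ _) (by rw [h0, norm_zero]; positivity)
      (by rw [le_inv_comm₀ hz' (by positivity)]; exact (min_le_right _ _).trans (min_le_right _ _))
      ((min_le_right _ _).trans (min_le_left _ _))
    rw [h, norm_zero] at h1
    have : ‖1 - z‖ = 0 := le_antisymm (by linarith) (norm_nonneg _)
    rw [norm_eq_zero, sub_eq_zero] at this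
    simp [← this]
  · have ht0 : 0 < ‖t‖ := norm_pos_iff.2 h0
    set ρ := √‖t‖ with hρ
    have hρ0 : 0 < ρ := Real.sqrt_pos.2 ht0
    have hρ2 : ρ ^ 2 = ‖t‖ := Real.sq_sqrt ht0.le
    have hρ1 : ρ ≤ 1 / 10 := by nlinarith
    obtain ⟨j, h1, h2⟩ := exists_mem_Ioc_zpow (x := ‖z‖ / ρ) (y := ‖t‖⁻¹) (by positivity)
      (by rw [one_lt_inv₀ ht0]; linarith)
    have hj : 0 < ‖t‖ ^ j := zpow_pos ht0 j
    rw [inv_zpow, inv_lt_iff_one_lt_mul₀ hj] at h1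
    rw [zpow_add_one₀ (inv_ne_zero ht0.ne'), inv_zpow] at h2
    have hn : ‖t ^ j * z‖ = ‖t‖ ^ j * ‖z‖ := by rw [norm_mul, norm_zpow]
    have h3 := th_lower (t := t) (z := t ^ j * z) hρ0 hρ1 hρ2.ge
      (by
        rw [hn]
        calc ‖t‖ ^ j * ‖z‖ = ‖t‖ ^ j * (‖z‖ / ρ) * ρ := by field_simp
          _ ≤ ‖t‖ ^ j * ((‖t‖ ^ j)⁻¹ * ‖t‖⁻¹) * ρ := by gcongr
          _ = ρ⁻¹ := by rw [← hρ2]; field_simp)
      (by
        rw [hn]
        calc ρ = 1 * ρ := by ring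
          _ ≤ ‖z‖ / ρ * ‖t‖ ^ j * ρ := by gcongr
          _ = _ := by field_simp)
    rw [(th_zpow (by linarith) h0 hz j).2 h, norm_zero] at h3
    have : ‖1 - t ^ j * z‖ = 0 := le_antisymm (by linarith) (norm_nonneg _)
    rw [norm_eq_zero, sub_eq_zero] at this
    refine ⟨-j, ?_⟩
    rw [zpow_neg]
    exact eq_inv_of_mul_eq_one_right this.symm

/-- the modulus of an integral power of a small number -/
theorem zpow_cases {t : ℂ} (ht : ‖t‖ < 1 / 100) (j : ℤ) :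
    t ^ j = 1 ∨ t ^ j = t ∨ ‖t ^ j‖ < 1 / 10000 ∨ 100 < ‖t ^ j‖ := by
  have h0 := norm_nonneg t
  rcases Int.eq_nat_or_neg j with ⟨k, rfl | rfl⟩
  · rcases k with _ | _ | k
    · simp
    · simp
    · refine Or.inr (Or.inr (Or.inl ?_))
      rw [zpow_natCast, norm_pow, pow_succ, pow_succ]
      have : ‖t‖ ^ k ≤ 1 := pow_le_one₀ h0 (by linarith)
      have h2 : ‖t‖ * ‖t‖ < 1 / 10000 := by nlinarith
      nlinarith [mul_nonneg h0 h0]
  · rcases k with _ | k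
    · simp
    by_cases h : t = 0
    · refine Or.inr (Or.inl ?_)
      rw [h, zero_zpow _ (by omega)]
    refine Or.inr (Or.inr (Or.inr ?_))
    have h1 : 0 < ‖t‖ := norm_pos_iff.2 h
    rw [zpow_neg, zpow_natCast, norm_inv, norm_pow, lt_inv_comm₀ (by norm_num) (by positivity),
      pow_succ]
    have : ‖t‖ ^ k ≤ 1 := pow_le_one₀ h0 (by linarith)
    nlinarith

theorem th_ne {t z : ℂ} (ht : ‖t‖ < 1 / 100) (h1 : 1 / 10000 ≤ ‖z‖) (h2 : ‖z‖ ≤ 100) (h3 : z ≠ 1)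
    (h4 : z ≠ t) : th t z ≠ 0 := by
  intro h
  obtain ⟨j, hj⟩ := th_zero ht (norm_pos_iff.1 (by linarith)) h
  rcases zpow_cases ht j with h | h | h | h <;> rw [← hj] at h
  · exact h3 h
  · exact h4 h
  · linarith
  · linarith

theorem th_ne' {t z : ℂ} (ht : ‖t‖ < 1 / 100) (h1 : 1 / 100 ≤ ‖z‖) (h2 : ‖z‖ ≤ 100) (h3 : z ≠ 1) :
    th t z ≠ 0 :=
  th_ne ht (by linarith) h2 h3 (by rintro rfl; linarith)

theorem th_deriv {t : ℂ} (ht : ‖t‖ < 1 / 100) : ∃ D : ℂ, D ≠ 0 ∧ HasDerivAt (th t) D 1 := by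
  have h1 : DifferentiableAt ℂ (th t) 1 :=
    (cd_th (T := fun _ : ℂ => t) (Y := fun z => z) (x := 1) contDiffAt_const contDiffAt_id
      (by linarith) one_ne_zero).differentiableAt one_ne_zero
  refine ⟨deriv (th t) 1, fun h => ?_, h1.hasDerivAt⟩
  have h2 := hasDerivAt_iff_tendsto_slope.1 h1.hasDerivAt
  rw [h] at h2
  have h3 : ∀ᶠ z in 𝓝[≠] (1 : ℂ), ‖slope (th t) 1 z‖ < 1 / 2 := by
    have := h2.norm
    rw [norm_zero] at this
    exact this.eventually (gt_mem_nhds (by norm_num))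
  have h4 : ∀ᶠ z in 𝓝[≠] (1 : ℂ), ‖z - 1‖ < 1 / 2 := by
    refine nhdsWithin_le_nhds ?_
    have : Continuous fun z : ℂ => ‖z - 1‖ := by fun_prop
    exact (this.tendsto 1).eventually (gt_mem_nhds (by simp))
  obtain ⟨z, hz1, hz2, hz3⟩ := (h3.and (h4.and self_mem_nhdsWithin)).exists
  have h5 := abs_norm_sub_norm_le z 1
  rw [abs_le, norm_one] at h5
  have h6 := th_lower (t := t) (z := z) (ρ := 1 / 10) (by norm_num) le_rfl (by linarith)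
    (by norm_num; linarith [h5.2]) (by linarith [h5.1])
  have h7 : 0 < ‖z - 1‖ := norm_pos_iff.2 (sub_ne_zero.2 hz3)
  rw [slope_def_field, th_one ht, sub_zero, norm_div, div_lt_iff₀ h7] at hz1
  rw [norm_sub_rev] at h6
  linarith

end Pool.Agent.P.MP_0cf9ad_an
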